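import Pool.Agent.J4H48.RP.AsyB

/-!
# Linearly many facets
-/

set_option autoImplicit false

open MeasureTheory ProbabilityTheory Filter Topology
open scoped RealInnerProductSpace ENNReal Matrix

namespace Pool.Agent.J4H48.RP

open Pool.Agent.PZ871 (E gm)
open Pool.Agent.TH84.HC

/-- the radius -/
noncomputable def Ra (d : ℕ) : ℝ := Real.sqrt d * (1.005 / 1.02)

theorem Ra_sq (d : ℕ) : Ra d ^ 2 = d * (1.005 / 1.02) ^ 2 := by
  unfold Ra
  rw [mul_pow, Real.sq_sqrt (Nat.cast_nonneg d)]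

theorem exp_num : 2 * Real.exp (-(0.029 / Real.pi)) ≤ 1.982 := by
  have h1 : 0.00923 ≤ 0.029 / Real.pi := by
    rw [le_div_iff₀ Real.pi_pos]
    have := Real.pi_lt_d4
    nlinarith
  have h2 : Real.exp (-(0.029 / Real.pi)) ≤ Real.exp (-0.00923) := Real.exp_le_exp.2 (by linarith)
  have h3 := exp_neg_le 0.00923 (by norm_num)
  have h4 : Real.exp (-0.00923) ≤ 0.991 := h3.trans (by norm_num)
  linarith

theorem bnd_le (d : ℕ) (hd : 2 ≤ d) :
    bnd d d (Ra d) ≤ 1 + 320 * (d:ℝ) ^ 4 * 1.982 ^ d := by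
  have hd0 : (2:ℝ) ≤ d := by exact_mod_cast hd
  unfold bnd
  rw [Ra_sq]
  have h1 : Real.exp (((d:ℝ) * (1.005 / 1.02) ^ 2 - d) / Real.pi) ≤
      Real.exp (-(0.029 / Real.pi)) ^ d := by
    rw [← Real.exp_nat_mul]
    apply Real.exp_le_exp.2
    rw [mul_neg, mul_div_assoc', ← neg_div]
    apply div_le_div_of_nonneg_right _ Real.pi_pos.le
    norm_num
    linarith
  have h2 : (2:ℝ) ^ d * Real.exp (((d:ℝ) * (1.005 / 1.02) ^ 2 - d) / Real.pi) ≤ 1.982 ^ d := by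
    calc (2:ℝ) ^ d * Real.exp (((d:ℝ) * (1.005 / 1.02) ^ 2 - d) / Real.pi)
        ≤ 2 ^ d * Real.exp (-(0.029 / Real.pi)) ^ d :=
          mul_le_mul_of_nonneg_left h1 (by positivity)
      _ = (2 * Real.exp (-(0.029 / Real.pi))) ^ d := by rw [mul_pow]
      _ ≤ 1.982 ^ d := pow_le_pow_left₀ (by positivity) exp_num d
  have h3 : Real.log (8 * ((d:ℝ) * (1.005 / 1.02) ^ 2) * (d + d + (d:ℝ) * (1.005 / 1.02) ^ 2 + 4)) ≤
      40 * (d:ℝ) ^ 2 := by
    have h4 : 0 < 8 * ((d:ℝ) * (1.005 / 1.02) ^ 2) * (d + d + (d:ℝ) * (1.005 / 1.02) ^ 2 + 4) := by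
      positivity
    refine (Real.log_le_sub_one_of_pos h4).trans ?_
    have h5 : (d:ℝ) * (1.005 / 1.02) ^ 2 ≤ d := by
      norm_num
      linarith
    have h6 : 8 * ((d:ℝ) * (1.005 / 1.02) ^ 2) * (d + d + (d:ℝ) * (1.005 / 1.02) ^ 2 + 4) ≤
        8 * d * (5 * d) := by
      apply mul_le_mul _ _ (by positivity) (by positivity)
      · linarith
      · linarith
    nlinarith
  have h7 : 8 * (d:ℝ) * d * 2 ^ d * Real.exp (((d:ℝ) * (1.005 / 1.02) ^ 2 - d) / Real.pi) *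
      Real.log (8 * ((d:ℝ) * (1.005 / 1.02) ^ 2) * (d + d + (d:ℝ) * (1.005 / 1.02) ^ 2 + 4)) ≤
      8 * (d:ℝ) * d * 1.982 ^ d * (40 * (d:ℝ) ^ 2) := by
    apply mul_le_mul _ h3 _ (by positivity)
    · rw [mul_assoc (8 * (d:ℝ) * d)]
      exact mul_le_mul_of_nonneg_left h2 (by positivity)
    · apply Real.log_nonneg
      have h8 : (1:ℝ) ≤ 8 * ((d:ℝ) * (1.005 / 1.02) ^ 2) := by
        norm_num
        linarith
      have h9 : (1:ℝ) ≤ (d + d + (d:ℝ) * (1.005 / 1.02) ^ 2 + 4) := by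
        have : 0 ≤ (d:ℝ) * (1.005 / 1.02) ^ 2 := by positivity
        linarith
      exact one_le_mul_of_one_le_of_one_le h8 h9
  have e : 8 * (d:ℝ) * d * 1.982 ^ d * (40 * (d:ℝ) ^ 2) = 320 * (d:ℝ) ^ 4 * 1.982 ^ d := by ring
  rw [e] at h7
  linarith

theorem num_lim : ∀ᶠ d : ℕ in atTop,
    (1.98:ℝ) ^ d + 1 + (1 + 320 * (d:ℝ) ^ 4 * 1.982 ^ d) ≤ 1.99 ^ d := by
  have h1 := tendsto_pow_atTop_nhds_zero_of_lt_one (r := (1.98 / 1.99 : ℝ)) (by norm_num)
    (by norm_num)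
  have h2 := tendsto_pow_atTop_nhds_zero_of_lt_one (r := (1 / 1.99 : ℝ)) (by norm_num)
    (by norm_num)
  have h3 := tendsto_pow_const_mul_const_pow_of_abs_lt_one 4 (r := (1.982 / 1.99 : ℝ))
    (by rw [abs_of_pos (by norm_num)]; norm_num)
  have h4 := (h1.add (h2.const_mul 2)).add (h3.const_mul 320)
  rw [mul_zero, mul_zero, add_zero, add_zero] at h4
  filter_upwards [h4.eventually (gt_mem_nhds one_pos)] with d hd
  have hp : (0:ℝ) < 1.99 ^ d := by positivity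
  have h5 : (1.98 / 1.99 : ℝ) ^ d + 2 * (1 / 1.99) ^ d + 320 * ((d:ℝ) ^ 4 * (1.982 / 1.99) ^ d) =
      ((1.98:ℝ) ^ d + 1 + (1 + 320 * (d:ℝ) ^ 4 * 1.982 ^ d)) / 1.99 ^ d := by
    rw [div_pow, div_pow, div_pow, one_pow]
    field_simp
    ring
  rw [h5, div_lt_one hp] at hd
  exact hd.le

/-- the data of a model -/
structure Dat (S : Finset ℝ) (k : ℕ) (q : ℝ) : Prop where
  hS : ∀ σ ∈ S, σ = 1 ∨ σ = -1
  h1S : (1:ℝ) ∈ S
  hk : 9 ≤ k
  hq0 : 0 < q
  hq1 : q * ((k + 1 : ℝ) / k) ≤ 1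
  hβ : (S.card : ℝ) * ((k + 1 : ℝ) * (q * ((k + 1 : ℝ) / k)) ^ k) ≤ 1.97
  hgq : gq S 1.02 ≤ ENNReal.ofReal (q - 0.0001)
  hq2 : 0.0001 ≤ q

theorem dat_sym : Dat {1, -1} 9 0.695 where
  hS := by
    intro σ hσ
    simpa using hσ
  h1S := by simp
  hk := le_rfl
  hq0 := by norm_num
  hq1 := by norm_num
  hβ := by
    rw [Finset.card_pair (by norm_num)]
    norm_num
  hgq := by
    have := gq_sym_num
    norm_num at this ⊢
    exact this
  hq2 := by norm_num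

theorem dat_one : Dat {1} 21 0.848 where
  hS := by
    intro σ hσ
    left
    simpa using hσ
  h1S := by simp
  hk := by norm_num
  hq0 := by norm_num
  hq1 := by norm_num
  hβ := by
    rw [Finset.card_singleton]
    norm_num
  hgq := by
    refine gq_one_num.trans (ENNReal.ofReal_le_ofReal (by norm_num))
  hq2 := by norm_num

theorem third_lin {S : Finset ℝ} {k : ℕ} {q : ℝ} (h : Dat S k q) {d N : ℕ}
    (hN : (k + 1) * d ≤ N) :
    (N.choose d : ℝ) * (S.card : ℝ) ^ d * q ^ (N - d) / (⌈(1.98:ℝ) ^ d⌉₊ : ℕ) ≤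
      (1.97 / 1.98) ^ d := by
  have hk : 1 ≤ k := by have := h.hk; omega
  have h1 := choose_pow_le N d k hk hN q h.hq0.le h.hq1
  have h2 : (N.choose d : ℝ) * (S.card : ℝ) ^ d * q ^ (N - d) ≤ 1.97 ^ d := by
    calc (N.choose d : ℝ) * (S.card : ℝ) ^ d * q ^ (N - d) =
        (S.card : ℝ) ^ d * ((N.choose d : ℝ) * q ^ (N - d)) := by ring
      _ ≤ (S.card : ℝ) ^ d * ((k + 1 : ℝ) * (q * ((k + 1 : ℝ) / k)) ^ k) ^ d :=
          mul_le_mul_of_nonneg_left h1 (by positivity)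
      _ = ((S.card : ℝ) * ((k + 1 : ℝ) * (q * ((k + 1 : ℝ) / k)) ^ k)) ^ d := (mul_pow _ _ _).symm
      _ ≤ 1.97 ^ d := by
          apply pow_le_pow_left₀ _ h.hβ
          have := h.hq0
          positivity
  have h3 : (1.98:ℝ) ^ d ≤ (⌈(1.98:ℝ) ^ d⌉₊ : ℕ) := Nat.le_ceil _
  rw [div_pow]
  exact div_le_div₀ (by positivity) h2 (by positivity) h3

theorem good_lin {S : Finset ℝ} {k : ℕ} {q : ℝ} (h : Dat S k q) {d N : ℕ} (hd : 2 ≤ d)
    (hnum : (1.98:ℝ) ^ d + 1 + (1 + 320 * (d:ℝ) ^ 4 * 1.982 ^ d) ≤ 1.99 ^ d)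
    {b : E d → ℝ} {r : ℝ} (hr : 0 < r) (g : Fin N → E d)
    (hn : Nice S b r (Ra d * r) ⌈(1.98:ℝ) ^ d⌉₊ g) : Good (1.99 ^ d) (Poly S b g) := by
  have hR : 1 ≤ Ra d := by
    have hd0 : (2:ℝ) ≤ d := by exact_mod_cast hd
    have h1 : (1:ℝ) ≤ Ra d ^ 2 := by
      rw [Ra_sq]
      norm_num
      linarith
    have h2 : 0 ≤ Ra d := by unfold Ra; positivity
    by_contra hc
    push Not at hc
    nlinarith
  refine (good_of_nice (by omega) h.hS hr hR hn).mono ?_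
  have h1 := bnd_le d hd
  have h2 : ((⌈(1.98:ℝ) ^ d⌉₊ : ℕ) : ℝ) ≤ 1.98 ^ d + 1 := (Nat.ceil_lt_add_one (by positivity)).le
  linarith

theorem x_eq {d : ℕ} (hd : 1 ≤ d) : 1.005 * Real.sqrt d / Ra d = 1.02 := by
  have hd0 : (0:ℝ) < d := by exact_mod_cast hd
  have hsd : 0 < Real.sqrt d := Real.sqrt_pos.2 hd0
  unfold Ra
  field_simp

theorem sum_pow_le {m : ℝ} (hm0 : 0 < m) (hm1 : m < 1) : ∀ᶠ d : ℕ in atTop,
    3 * m ^ d ≤ ((1 + m) / 2) ^ d := by
  have hη : 0 < (1 + m) / 2 := by linarith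
  have h1 := (tendsto_pow_atTop_nhds_zero_of_lt_one (r := m / ((1 + m) / 2)) (by positivity)
    (by rw [div_lt_one hη]; linarith)).const_mul 3
  rw [mul_zero] at h1
  filter_upwards [h1.eventually (gt_mem_nhds one_pos)] with d hd
  rw [div_pow, mul_div_assoc', div_lt_one (by positivity)] at hd
  exact hd.le

/-- tangent facets -/
theorem lin_norm {S : Finset ℝ} {k : ℕ} {q : ℝ} (h : Dat S k q) : ∃ η : ℝ, 0 < η ∧ η < 1 ∧
    ∃ d₀ : ℕ, ∀ d : ℕ, d₀ ≤ d → ∀ N : ℕ, (k + 1) * d ≤ N →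
    Law d N {g | ¬ Good (1.99 ^ d) (Poly S (fun a => ‖a‖) g)} ≤ ENNReal.ofReal (η ^ d) := by
  obtain ⟨m, hm⟩ : ∃ m : ℝ, m = 1.97 / 1.98 := ⟨_, rfl⟩
  have hm0 : 0 < m := by rw [hm]; norm_num
  have hm1 : m < 1 := by rw [hm]; norm_num
  have hlim := tendsto_pow_atTop_nhds_zero_of_lt_one (th_nonneg (t := 1.005) (by norm_num))
    (th_lt_one (t := 1.005) (by norm_num))
  have hev := ((hlim.eventually (gt_mem_nhds (show (0:ℝ) < 0.0001 by norm_num))).and
    ((sum_pow_le hm0 hm1).and num_lim)).and (eventually_ge_atTop 2)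
  obtain ⟨d₀, hd₀⟩ := eventually_atTop.1 hev
  refine ⟨(1 + m) / 2, by linarith, by linarith, d₀, fun d hd N hN => ?_⟩
  obtain ⟨⟨hth, hsum, hnum⟩, hd2⟩ := hd₀ d hd
  have hq : gq S (1.005 * Real.sqrt d / Ra d) + ENNReal.ofReal (th 1.005 ^ d) ≤
      ENNReal.ofReal q := by
    rw [x_eq (by omega)]
    refine (add_le_add h.hgq (ENNReal.ofReal_le_ofReal (le_of_lt hth))).trans (le_of_eq ?_)
    rw [← ENNReal.ofReal_add (by have := h.hq2; linarith) (by norm_num)]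
    congr 1
    ring
  have hd0 : (0:ℝ) < d := by exact_mod_cast (by omega : 0 < d)
  have hsd : 0 < Real.sqrt d := Real.sqrt_pos.2 hd0
  have hRa : 0 < Ra d := by unfold Ra; positivity
  have hMp : 1 ≤ ⌈(1.98:ℝ) ^ d⌉₊ := Nat.one_le_ceil_iff.2 (by positivity)
  have h1 := pb_norm (N := N) hd2 h.hS (t := 1.005) (R := Ra d) (q' := q)
    (by norm_num) hRa h.hq0.le hq ⌈(1.98:ℝ) ^ d⌉₊ hMp
  have hsub : {g : Fin N → E d | ¬ Good (1.99 ^ d) (Poly S (fun a => ‖a‖) g)} ⊆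
      {g | ¬ Nice S (fun a => ‖a‖) 1 (Ra d * 1) ⌈(1.98:ℝ) ^ d⌉₊ g} := by
    intro g hg hn
    exact hg (good_lin h hd2 hnum one_pos g hn)
  refine (measure_mono hsub).trans (h1.trans ?_)
  have h2 := rec_le (d := d) (N := N) S h.h1S k hN
  have h3 : (5 * (5 / 9 : ℝ) ^ k) ^ d ≤ m ^ d := by
    apply pow_le_pow_left₀ (by positivity)
    have : (5 / 9 : ℝ) ^ k ≤ (5 / 9 : ℝ) ^ 9 := pow_le_pow_of_le_one (by norm_num) (by norm_num) h.hk
    have h5 : 5 * (5 / 9 : ℝ) ^ 9 ≤ m := by rw [hm]; norm_num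
    linarith
  have h4 := third_lin h hN
  rw [← hm] at h4
  calc Law d N {g | Rec S g} +
      ENNReal.ofReal ((N.choose d : ℝ) * (S.card : ℝ) ^ d * q ^ (N - d) / (⌈(1.98:ℝ) ^ d⌉₊ : ℕ))
      ≤ ENNReal.ofReal (m ^ d) + ENNReal.ofReal (m ^ d) := by
        apply add_le_add
        · exact h2.trans (ENNReal.ofReal_le_ofReal h3)
        · exact ENNReal.ofReal_le_ofReal h4
    _ ≤ ENNReal.ofReal (((1 + m) / 2) ^ d) := by
        rw [← ENNReal.ofReal_add (by positivity) (by positivity)]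
        apply ENNReal.ofReal_le_ofReal
        have h5 : 0 < m ^ d := by positivity
        linarith

/-- Gaussian normals -/
theorem lin_one {S : Finset ℝ} {k : ℕ} {q : ℝ} (h : Dat S k q) : ∃ η : ℝ, 0 < η ∧ η < 1 ∧
    ∃ d₀ : ℕ, ∀ d : ℕ, d₀ ≤ d → ∀ N : ℕ, (k + 1) * d ≤ N →
    Law d N {g | ¬ Good (1.99 ^ d) (Poly S (fun _ => 1) g)} ≤ ENNReal.ofReal (η ^ d) := by
  set s : ℝ := Real.sqrt (th 1.005) with hs
  have hth0 : 0 < th 1.005 := by unfold th; positivity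
  have hth1 : th 1.005 < 1 := th_lt_one (by norm_num)
  have hs0 : 0 < s := Real.sqrt_pos.2 hth0
  have hs1 : s < 1 := by
    rw [hs, Real.sqrt_lt' one_pos]
    simpa using hth1
  have hss : s * s = th 1.005 := Real.mul_self_sqrt hth0.le
  set m : ℝ := max (1.97 / 1.98) s with hm
  have hm0 : 0 < m := lt_max_of_lt_right hs0
  have hm1 : m < 1 := max_lt (by norm_num) hs1
  have hm2 : 1.97 / 1.98 ≤ m := le_max_left _ _
  have hm3 : s ≤ m := le_max_right _ _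
  obtain ⟨C, d₁, hmany⟩ := many_one (1/2) (by norm_num)
  have hlim := tendsto_pow_const_mul_const_pow_of_abs_lt_one 1 (r := s)
    (by rw [abs_of_pos hs0]; exact hs1)
  have hlim2 := hlim.const_mul (C:ℝ)
  rw [mul_zero] at hlim2
  have hev := ((hlim2.eventually (gt_mem_nhds one_pos)).and
    ((sum_pow_le hm0 hm1).and num_lim)).and (eventually_ge_atTop (max 2 d₁))
  obtain ⟨d₀, hd₀⟩ := eventually_atTop.1 hev
  refine ⟨(1 + m) / 2, by linarith, by linarith, d₀, fun d hd N hN => ?_⟩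
  obtain ⟨⟨hC, hsum, hnum⟩, hd21⟩ := hd₀ d hd
  have hd2 : 2 ≤ d := (le_max_left _ _).trans hd21
  have hd1 : d₁ ≤ d := (le_max_right _ _).trans hd21
  have hmp : 0 < m ^ d := by positivity
  have hsd' : (0:ℝ) < s ^ d := by positivity
  rcases le_total ((N:ℝ)) (1 / s ^ d) with hcase | hcase
  · have hq : gq S (1.005 * Real.sqrt d / Ra d) ≤ ENNReal.ofReal q := by
      rw [x_eq (by omega)]
      exact h.hgq.trans (ENNReal.ofReal_le_ofReal (by linarith))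
    have hd0 : (0:ℝ) < d := by exact_mod_cast (by omega : 0 < d)
    have hsd : 0 < Real.sqrt d := Real.sqrt_pos.2 hd0
    have hRa : 0 < Ra d := by unfold Ra; positivity
    have hMp : 1 ≤ ⌈(1.98:ℝ) ^ d⌉₊ := Nat.one_le_ceil_iff.2 (by positivity)
    have h1 := pb_one (N := N) (by omega) h.hS (t := 1.005) (R := Ra d) (q' := q)
      (by norm_num) hRa h.hq0.le hq ⌈(1.98:ℝ) ^ d⌉₊ hMp
    have hr : 0 < 1 / (1.005 * Real.sqrt d) := by positivity
    have hsub : {g : Fin N → E d | ¬ Good (1.99 ^ d) (Poly S (fun _ => 1) g)} ⊆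
        {g | ¬ Nice S (fun _ => 1) (1 / (1.005 * Real.sqrt d))
          (Ra d * (1 / (1.005 * Real.sqrt d))) ⌈(1.98:ℝ) ^ d⌉₊ g} := by
      intro g hg hn
      exact hg (good_lin h hd2 hnum hr g hn)
    refine (measure_mono hsub).trans (h1.trans ?_)
    have h2 := rec_le (d := d) (N := N) S h.h1S k hN
    have h3 : (5 * (5 / 9 : ℝ) ^ k) ^ d ≤ m ^ d := by
      apply pow_le_pow_left₀ (by positivity)
      have : (5 / 9 : ℝ) ^ k ≤ (5 / 9 : ℝ) ^ 9 :=
        pow_le_pow_of_le_one (by norm_num) (by norm_num) h.hk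
      have h5 : 5 * (5 / 9 : ℝ) ^ 9 ≤ 1.97 / 1.98 := by norm_num
      linarith
    have h4 : (N.choose d : ℝ) * (S.card : ℝ) ^ d * q ^ (N - d) / (⌈(1.98:ℝ) ^ d⌉₊ : ℕ) ≤ m ^ d :=
      (third_lin h hN).trans (pow_le_pow_left₀ (by norm_num) hm2 d)
    have h5 : (N:ℝ) * th 1.005 ^ d ≤ m ^ d := by
      calc (N:ℝ) * th 1.005 ^ d ≤ 1 / s ^ d * th 1.005 ^ d :=
            mul_le_mul_of_nonneg_right hcase (by positivity)
        _ = s ^ d := by
            rw [← hss, mul_pow]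
            field_simp
        _ ≤ m ^ d := pow_le_pow_left₀ hs0.le hm3 d
    calc Law d N {g | Rec S g} + ENNReal.ofReal (N * th 1.005 ^ d) +
        ENNReal.ofReal ((N.choose d : ℝ) * (S.card : ℝ) ^ d * q ^ (N - d) / (⌈(1.98:ℝ) ^ d⌉₊ : ℕ))
        ≤ ENNReal.ofReal (m ^ d) + ENNReal.ofReal (m ^ d) + ENNReal.ofReal (m ^ d) := by
          apply add_le_add (add_le_add _ _)
          · exact ENNReal.ofReal_le_ofReal h4
          · exact h2.trans (ENNReal.ofReal_le_ofReal h3)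
          · exact ENNReal.ofReal_le_ofReal h5
      _ ≤ ENNReal.ofReal (((1 + m) / 2) ^ d) := by
          rw [← ENNReal.ofReal_add (by positivity) (by positivity),
            ← ENNReal.ofReal_add (by positivity) (by positivity)]
          apply ENNReal.ofReal_le_ofReal
          linarith
  · have hCN : C * d ≤ N := by
      have h6 : (C:ℝ) * d ≤ N := by
        have h7 : (C:ℝ) * ((d:ℝ) ^ 1 * s ^ d) < 1 := hC
        rw [pow_one] at h7
        have h8 : (C:ℝ) * d ≤ 1 / s ^ d := by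
          rw [le_div_iff₀ hsd']
          linarith
        linarith
      exact_mod_cast h6
    have h1 := hmany d hd1 N hCN S h.hS h.h1S
    have hsub : {g : Fin N → E d | ¬ Good (1.99 ^ d) (Poly S (fun _ => 1) g)} ⊆
        {g | ¬ Good ((1 + 1 / 2) ^ d) (Poly S (fun _ => 1) g)} := by
      intro g hg hn
      exact hg (hn.mono (pow_le_pow_left₀ (by norm_num) (by norm_num) d))
    refine (measure_mono hsub).trans (h1.trans (ENNReal.ofReal_le_ofReal ?_))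
    have h2 : (1 / 2 : ℝ) ^ d ≤ m ^ d :=
      pow_le_pow_left₀ (by norm_num) (by have : (1/2:ℝ) ≤ 1.97 / 1.98 := by norm_num
                                         linarith) d
    linarith

end Pool.Agent.J4H48.RP
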