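import Pool.Agent.J4H48.RP.Models

/-!
# Many facets: few translates
-/

set_option autoImplicit false

open MeasureTheory ProbabilityTheory Filter Topology
open scoped RealInnerProductSpace ENNReal Matrix

namespace Pool.Agent.J4H48.RP

open Pool.Agent.PZ871 (E gm)
open Pool.Agent.TH84.HC

theorem th_le (t : ℝ) : th t ≤ Real.exp (1 / 2 - t ^ 2 / 4) := by
  unfold th
  have h1 : t ≤ Real.exp (t ^ 2 / 4) := by
    have := Real.add_one_le_exp (t ^ 2 / 4)
    nlinarith [sq_nonneg (t / 2 - 1)]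
  calc t * Real.exp (-((t ^ 2 - 1) / 2)) ≤ Real.exp (t ^ 2 / 4) * Real.exp (-((t ^ 2 - 1) / 2)) :=
        mul_le_mul_of_nonneg_right h1 (Real.exp_pos _).le
    _ = Real.exp (1 / 2 - t ^ 2 / 4) := by
        rw [← Real.exp_add]
        congr 1
        ring

theorem th_lt_one {t : ℝ} (ht : 1 < t) : th t < 1 := by
  unfold th
  have h1 : t < Real.exp ((t ^ 2 - 1) / 2) := by
    have := Real.add_one_le_exp ((t ^ 2 - 1) / 2)
    nlinarith [sq_pos_of_pos (show 0 < t - 1 by linarith)]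
  rw [Real.exp_neg, ← div_eq_mul_inv, div_lt_one (Real.exp_pos _)]
  exact h1

theorem card_le_two {S : Finset ℝ} (hS : ∀ σ ∈ S, σ = 1 ∨ σ = -1) : S.card ≤ 2 := by
  have h1 : S ⊆ {1, -1} := by
    intro σ hσ
    simpa using hS σ hσ
  exact (Finset.card_le_card h1).trans Finset.card_le_two

/-- choice of the number of facets -/
theorem choose_k (q e : ℝ) (hq0 : 0 < q) (hq1 : q < 1) (he : 0 < e) : ∃ k : ℕ, 1 ≤ k ∧
    q * ((k + 1 : ℝ) / k) ≤ 1 ∧ 2 * ((k + 1 : ℝ) * (q * ((k + 1 : ℝ) / k)) ^ k) ≤ e ∧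
    5 * (5 / 9 : ℝ) ^ k ≤ e := by
  have h1 : Tendsto (fun k : ℕ => q * ((k + 1 : ℝ) / k)) atTop (𝓝 (q * 1)) := by
    apply Tendsto.const_mul
    have h2 : Tendsto (fun k : ℕ => 1 + 1 / (k:ℝ)) atTop (𝓝 (1 + 0)) :=
      tendsto_const_nhds.add tendsto_one_div_atTop_nhds_zero_nat
    rw [add_zero] at h2
    refine h2.congr' ?_
    filter_upwards [eventually_ge_atTop 1] with k hk
    have : (0:ℝ) < k := by exact_mod_cast hk
    field_simp
  rw [mul_one] at h1
  have h3 : ∀ᶠ k : ℕ in atTop, q * ((k + 1 : ℝ) / k) ≤ 1 :=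
    (h1.eventually (gt_mem_nhds hq1)).mono fun k hk => le_of_lt hk
  have h4 : Tendsto (fun k : ℕ => 2 * ((k + 1 : ℝ) * (3 * q ^ k))) atTop (𝓝 0) := by
    have h5 := tendsto_pow_const_mul_const_pow_of_abs_lt_one 1 (r := q) (by rw [abs_of_pos hq0]; exact hq1)
    have h6 := tendsto_pow_atTop_nhds_zero_of_lt_one hq0.le hq1
    have h7 := (h5.add h6).const_mul 6
    rw [add_zero, mul_zero] at h7
    refine h7.congr fun k => ?_
    ring
  have h5 : ∀ᶠ k : ℕ in atTop, 2 * ((k + 1 : ℝ) * (3 * q ^ k)) ≤ e :=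
    (h4.eventually (gt_mem_nhds he)).mono fun k hk => le_of_lt hk
  have h6 : Tendsto (fun k : ℕ => 5 * (5 / 9 : ℝ) ^ k) atTop (𝓝 0) := by
    have := (tendsto_pow_atTop_nhds_zero_of_lt_one (r := (5/9 : ℝ)) (by norm_num)
      (by norm_num)).const_mul 5
    rwa [mul_zero] at this
  have h7 : ∀ᶠ k : ℕ in atTop, 5 * (5 / 9 : ℝ) ^ k ≤ e :=
    (h6.eventually (gt_mem_nhds he)).mono fun k hk => le_of_lt hk
  obtain ⟨k, ⟨⟨a1, a2⟩, a3⟩, a4⟩ := (((h3.and h5).and h7).and (eventually_ge_atTop 1)).exists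
  refine ⟨k, a4, a1, le_trans ?_ a2, a3⟩
  have hk0 : (0:ℝ) < k := by exact_mod_cast a4
  have h8 : ((k + 1 : ℝ) / k) ^ k ≤ 3 := by
    have h9 : (k + 1 : ℝ) / k ≤ Real.exp (1 / k) := by
      have := Real.add_one_le_exp (1 / (k:ℝ))
      refine le_trans (le_of_eq ?_) this
      field_simp
      ring
    calc ((k + 1 : ℝ) / k) ^ k ≤ Real.exp (1 / k) ^ k := pow_le_pow_left₀ (by positivity) h9 _
      _ = Real.exp 1 := by
          rw [← Real.exp_nat_mul]
          congr 1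
          field_simp
      _ ≤ 3 := by
          have := Real.exp_one_lt_d9
          linarith
  apply mul_le_mul_of_nonneg_left _ (by norm_num)
  apply mul_le_mul_of_nonneg_left _ (by positivity)
  rw [mul_pow, mul_comm 3]
  exact mul_le_mul_of_nonneg_left h8 (by positivity)

/-- parameters for many facets -/
theorem setup (ε : ℝ) (hε : 0 < ε) : ∃ c : ℝ, 0 < c ∧ c ≤ 1 ∧ ∃ d₀ : ℕ, ∀ d : ℕ, d₀ ≤ d →
    2 ≤ d ∧ 1 ≤ Real.sqrt (c * d) ∧ ∀ (S : Finset ℝ), (∀ σ ∈ S, σ = 1 ∨ σ = -1) →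
    ∀ (N : ℕ) (b : E d → ℝ) (r : ℝ), 0 < r → ∀ g : Fin N → E d,
    Nice S b r (Real.sqrt (c * d) * r) 1 g → Good ((1 + ε) ^ d) (Poly S b g) := by
  obtain ⟨c, hc, d₀, h⟩ := asympU ε hε
  have hl3 : 0 < Real.log 3 := Real.log_pos (by norm_num)
  refine ⟨min 1 (c / Real.log 3), lt_min one_pos (by positivity), min_le_left _ _,
    max (max d₀ 2) ⌈1 / min 1 (c / Real.log 3)⌉₊, fun d hd => ?_⟩
  have hd1 : d₀ ≤ d := (le_max_left _ _).trans ((le_max_left _ _).trans hd)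
  have hd2 : 2 ≤ d := (le_max_right _ _).trans ((le_max_left _ _).trans hd)
  have hd3 : 1 / min 1 (c / Real.log 3) ≤ d :=
    (Nat.le_ceil _).trans (by exact_mod_cast (le_max_right _ _).trans hd)
  set c' := min 1 (c / Real.log 3) with hc'
  have hc'0 : 0 < c' := lt_min one_pos (by positivity)
  have hd0 : (0:ℝ) < d := by exact_mod_cast (by omega : 0 < d)
  have h1 : 1 ≤ c' * d := by
    rwa [div_le_iff₀ hc'0, mul_comm] at hd3
  have hR : 1 ≤ Real.sqrt (c' * d) := Real.one_le_sqrt.2 h1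
  refine ⟨hd2, hR, fun S hS N b r hr g hg => ?_⟩
  obtain ⟨h2, F, hF, h3⟩ := seen_of_nice (by omega) hS hr hg
  have hF0 : F.card = 0 := by omega
  refine ⟨h2, ?_⟩
  have h4 := h d hd1 d (Real.sqrt (c' * d)) hR ?_ (Poly S b g) (scal d r hr) h2 F h3
  · rw [hF0] at h4
    simpa using h4
  · rw [Real.sq_sqrt (by positivity), div_self hd0.ne']
    have h5 : c' ≤ c / Real.log 3 := min_le_right _ _
    have h6 : c' * Real.log 3 ≤ c := by rwa [le_div_iff₀ hl3] at h5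
    rw [show (2:ℝ) + 1 = 3 by norm_num]
    nlinarith

theorem sum3 (e : ℝ) (he : 0 < e) {d : ℕ} (hd : 1 ≤ d) : 3 * (e / 4) ^ d ≤ e ^ d := by
  rw [div_pow]
  have h1 : (4:ℝ) ≤ 4 ^ d := by
    calc (4:ℝ) = 4 ^ 1 := by norm_num
      _ ≤ 4 ^ d := pow_le_pow_right₀ (by norm_num) hd
  rw [mul_div_assoc', div_le_iff₀ (by positivity)]
  have : 0 < e ^ d := by positivity
  nlinarith

theorem card_pow_le {S : Finset ℝ} (hS : ∀ σ ∈ S, σ = 1 ∨ σ = -1) (d : ℕ) :
    (S.card : ℝ) ^ d ≤ 2 ^ d :=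
  pow_le_pow_left₀ (Nat.cast_nonneg _) (by exact_mod_cast card_le_two hS) d

/-- the third term -/
theorem third_small {S : Finset ℝ} (hS : ∀ σ ∈ S, σ = 1 ∨ σ = -1) {q e : ℝ} (hq0 : 0 < q)
    {k : ℕ} (hk : 1 ≤ k) (hk1 : q * ((k + 1 : ℝ) / k) ≤ 1)
    (hk2 : 2 * ((k + 1 : ℝ) * (q * ((k + 1 : ℝ) / k)) ^ k) ≤ e) {d N : ℕ}
    (hN : (k + 1) * d ≤ N) :
    (N.choose d : ℝ) * (S.card : ℝ) ^ d * q ^ (N - d) ≤ e ^ d := by
  have h1 := choose_pow_le N d k hk hN q hq0.le hk1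
  calc (N.choose d : ℝ) * (S.card : ℝ) ^ d * q ^ (N - d) =
      (S.card : ℝ) ^ d * ((N.choose d : ℝ) * q ^ (N - d)) := by ring
    _ ≤ 2 ^ d * ((k + 1 : ℝ) * (q * ((k + 1 : ℝ) / k)) ^ k) ^ d :=
        mul_le_mul (card_pow_le hS d) h1 (by positivity) (by positivity)
    _ = (2 * ((k + 1 : ℝ) * (q * ((k + 1 : ℝ) / k)) ^ k)) ^ d := (mul_pow _ _ _).symm
    _ ≤ e ^ d := pow_le_pow_left₀ (by positivity) hk2 d

/-- tangent facets, many -/
theorem many_norm (ε : ℝ) (hε : 0 < ε) : ∃ C d₀ : ℕ, ∀ d : ℕ, d₀ ≤ d → ∀ N : ℕ, C * d ≤ N →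
    ∀ S : Finset ℝ, (∀ σ ∈ S, σ = 1 ∨ σ = -1) → (1:ℝ) ∈ S →
    Law d N {g | ¬ Good ((1 + ε) ^ d) (Poly S (fun a => ‖a‖) g)} ≤ ENNReal.ofReal (ε ^ d) := by
  obtain ⟨c, hc, hc1, d₁, hset⟩ := setup ε hε
  set x : ℝ := 2 / Real.sqrt c with hx
  have hsc : 0 < Real.sqrt c := Real.sqrt_pos.2 hc
  have hx0 : 0 < x := by positivity
  set u : ℝ := Real.exp (-(x ^ 2 + 1)) with hu
  have hu0 : 0 < u := Real.exp_pos _
  have hu1 : u < 1 := by
    rw [hu, Real.exp_lt_one_iff]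
    have : 0 < x ^ 2 := by positivity
    linarith
  have hth : th 2 < 1 := th_lt_one (by norm_num)
  have hth0 : 0 ≤ th 2 := th_nonneg (by norm_num)
  have hlim := tendsto_pow_atTop_nhds_zero_of_lt_one hth0 hth
  obtain ⟨d₂, hd₂⟩ := eventually_atTop.1 (hlim.eventually (gt_mem_nhds (show 0 < 1/6 * u by positivity)))
  obtain ⟨k, hk, hk1, hk2, hk3⟩ := choose_k (1 - 1/6 * u) (ε / 4) (by linarith) (by linarith)
    (by positivity)
  refine ⟨k + 1, max d₁ d₂, fun d hd N hN S hS h1S => ?_⟩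
  obtain ⟨hd2, hR, hgood⟩ := hset d ((le_max_left _ _).trans hd)
  have hth2 := hd₂ d ((le_max_right _ _).trans hd)
  have hd0 : (0:ℝ) < d := by exact_mod_cast (by omega : 0 < d)
  have hsd : 0 < Real.sqrt d := Real.sqrt_pos.2 hd0
  have hsub : {g : Fin N → E d | ¬ Good ((1 + ε) ^ d) (Poly S (fun a => ‖a‖) g)} ⊆
      {g | ¬ Nice S (fun a => ‖a‖) 1 (Real.sqrt (c * d) * 1) 1 g} := by
    intro g hg hn
    exact hg (hgood S hS N (fun a => ‖a‖) 1 one_pos g hn)
  have hxe : 2 * Real.sqrt d / Real.sqrt (c * d) = x := by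
    rw [Real.sqrt_mul hc.le, hx]
    field_simp
  have hq : gq S (2 * Real.sqrt d / Real.sqrt (c * d)) + ENNReal.ofReal (th 2 ^ d) ≤
      ENNReal.ofReal (1 - 1/6 * u) := by
    rw [hxe]
    have h1 := gq_lt S h1S hx0.le
    have h2 : ENNReal.ofReal (th 2 ^ d) ≤ ENNReal.ofReal (1/6 * u) :=
      ENNReal.ofReal_le_ofReal (le_of_lt hth2)
    refine (add_le_add h1 h2).trans (le_of_eq ?_)
    rw [← ENNReal.ofReal_add _ (by positivity)]
    · congr 1
      rw [← hu]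
      ring
    · rw [← hu]
      linarith
  have h1 := pb_norm (N := N) hd2 hS (t := 2) (R := Real.sqrt (c * d)) (q' := 1 - 1/6 * u)
    (by norm_num) (by positivity) (by linarith) hq 1 le_rfl
  refine (measure_mono hsub).trans (h1.trans ?_)
  have h2 := rec_le (d := d) (N := N) S h1S k hN
  have h3 : (5 * (5 / 9 : ℝ) ^ k) ^ d ≤ (ε / 4) ^ d := pow_le_pow_left₀ (by positivity) hk3 d
  have h4 := third_small hS (show 0 < 1 - 1/6 * u by linarith) hk hk1 hk2 hN
  calc Law d N {g | Rec S g} +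
      ENNReal.ofReal ((N.choose d : ℝ) * (S.card : ℝ) ^ d * (1 - 1/6 * u) ^ (N - d) / ((1:ℕ):ℝ))
      ≤ ENNReal.ofReal ((ε / 4) ^ d) + ENNReal.ofReal ((ε / 4) ^ d) := by
        apply add_le_add
        · exact h2.trans (ENNReal.ofReal_le_ofReal h3)
        · apply ENNReal.ofReal_le_ofReal
          simpa using h4
    _ ≤ ENNReal.ofReal (ε ^ d) := by
        rw [← ENNReal.ofReal_add (by positivity) (by positivity)]
        apply ENNReal.ofReal_le_ofReal
        have := sum3 ε hε (d := d) (by omega)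
        have h5 : 0 < (ε / 4) ^ d := by positivity
        linarith

/-- very many facets: the third term -/
theorem third_huge {S : Finset ℝ} (hS : ∀ σ ∈ S, σ = 1 ∨ σ = -1) {c K A L : ℝ} (hc : 0 < c)
    (hK : 0 ≤ K) (hA : 0 ≤ A) (hL : 1 ≤ L) {d N : ℕ} (hd0 : 1 ≤ d) (hN : Real.exp (L * d) = N)
    (h2N : 2 * d ≤ N) (hd1 : 2 * ((4 + K) / c + 3) ≤ d) (hd2 : 48 * (2 + A) ≤ d) :
    (N.choose d : ℝ) * (S.card : ℝ) ^ d *
      (1 - 1 / 3 * Real.exp (-((4 * L + K) / c + 1))) ^ (N - d) ≤ Real.exp (-(A * d)) := by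
  have hdp : (1:ℝ) ≤ d := by exact_mod_cast hd0
  set v : ℝ := Real.exp (-((4 * L + K) / c + 1)) with hv
  have hv0 : 0 < v := Real.exp_pos _
  have hv1 : v ≤ 1 := by
    rw [hv, Real.exp_le_one_iff]
    have : 0 ≤ (4 * L + K) / c := by positivity
    linarith
  have h1 : (N.choose d : ℝ) ≤ Real.exp (L * d * d) := by
    have h2 : (N.choose d : ℝ) ≤ (N:ℝ) ^ d := by exact_mod_cast Nat.choose_le_pow N d
    rw [← hN, ← Real.exp_nat_mul] at h2
    refine h2.trans (le_of_eq ?_)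
    congr 1
    ring
  have h2 : (S.card : ℝ) ^ d ≤ Real.exp d := by
    refine (card_pow_le hS d).trans ?_
    have h3 : (2:ℝ) ≤ Real.exp 1 := by
      have := Real.exp_one_gt_d9
      linarith
    calc (2:ℝ) ^ d ≤ Real.exp 1 ^ d := pow_le_pow_left₀ (by norm_num) h3 d
      _ = Real.exp d := by rw [← Real.exp_nat_mul, mul_one]
  have h3 : (1 - 1 / 3 * v) ^ (N - d) ≤ Real.exp (-(1 / 3 * v * (N - d : ℕ))) := by
    have h4 : 1 - 1 / 3 * v ≤ Real.exp (-(1 / 3 * v)) := by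
      have := Real.add_one_le_exp (-(1 / 3 * v))
      linarith
    calc (1 - 1 / 3 * v) ^ (N - d) ≤ Real.exp (-(1 / 3 * v)) ^ (N - d) :=
          pow_le_pow_left₀ (by linarith) h4 _
      _ = _ := by
          rw [← Real.exp_nat_mul]
          congr 1
          ring
  have h4 : ((N:ℝ)) / 2 ≤ (N - d : ℕ) := by
    rw [Nat.cast_sub (by omega)]
    have : (2:ℝ) * d ≤ N := by exact_mod_cast h2N
    linarith
  have h5 : Real.exp (L * d / 2) ≤ 1 / 3 * v * (N - d : ℕ) := by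
    have h6 : Real.exp (L * d / 2) ≤ 1 / 3 * v * ((N:ℝ) / 2) := by
      rw [← hN, hv]
      have h7 : Real.exp (L * d / 2) * 6 ≤ Real.exp (L * d / 2) * Real.exp 2 := by
        apply mul_le_mul_of_nonneg_left _ (Real.exp_pos _).le
        have h8 : Real.exp 2 = Real.exp 1 * Real.exp 1 := by rw [← Real.exp_add]; norm_num
        rw [h8]
        nlinarith [Real.exp_one_gt_d9]
      have h9 : Real.exp (L * d / 2) * Real.exp 2 ≤
          Real.exp (-((4 * L + K) / c + 1)) * Real.exp (L * d) := by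
        rw [← Real.exp_add, ← Real.exp_add]
        apply Real.exp_le_exp.2
        have h10 : (4 * L + K) / c ≤ L * ((4 + K) / c) := by
          rw [mul_div_assoc']
          apply div_le_div_of_nonneg_right _ hc.le
          nlinarith
        have h11 : L * (2 * ((4 + K) / c + 3)) ≤ L * d := mul_le_mul_of_nonneg_left hd1 (by linarith)
        nlinarith
      linarith
    refine h6.trans ?_
    exact mul_le_mul_of_nonneg_left h4 (by positivity)
  have h6 : L * d * d + d + A * d ≤ Real.exp (L * d / 2) := by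
    have hp : 0 ≤ L * d / 2 := by positivity
    have h7 := Real.sum_le_exp_of_nonneg hp 4
    have h8 : (L * d / 2) ^ 3 / 6 ≤ Real.exp (L * d / 2) := by
      refine le_trans ?_ h7
      simp only [Finset.sum_range_succ, Finset.sum_range_zero, Nat.factorial]
      norm_num
      have : 0 ≤ (L * d / 2) ^ 2 := by positivity
      linarith
    refine le_trans ?_ h8
    have hL3 : L ≤ L ^ 3 := by
      calc L = L ^ 1 := by ring
        _ ≤ L ^ 3 := pow_le_pow_right₀ hL (by norm_num)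
    have h9 : L * d ^ 3 / 48 ≤ (L * d / 2) ^ 3 / 6 := by
      have e : (L * d / 2) ^ 3 / 6 = L ^ 3 * d ^ 3 / 48 := by ring
      rw [e]
      have : (0:ℝ) ≤ (d:ℝ) ^ 3 := by positivity
      nlinarith
    refine le_trans ?_ h9
    have h10 : L * (d:ℝ) ^ 2 * (48 * (2 + A)) ≤ L * (d:ℝ) ^ 2 * d :=
      mul_le_mul_of_nonneg_left hd2 (by positivity)
    have h11 : (d:ℝ) ≤ L * d ^ 2 := by nlinarith
    have h12 : A * d ≤ A * (L * d ^ 2) := mul_le_mul_of_nonneg_left h11 hA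
    nlinarith
  calc (N.choose d : ℝ) * (S.card : ℝ) ^ d * (1 - 1 / 3 * v) ^ (N - d)
      ≤ Real.exp (L * d * d) * Real.exp d * Real.exp (-(1 / 3 * v * (N - d : ℕ))) := by
        have : 0 ≤ 1 - 1 / 3 * v := by linarith
        gcongr
    _ = Real.exp (L * d * d + d - 1 / 3 * v * (N - d : ℕ)) := by
        rw [← Real.exp_add, ← Real.exp_add]
        congr 1
    _ ≤ Real.exp (-(A * d)) := by
        apply Real.exp_le_exp.2
        linarith

theorem th_pow_le {t L A : ℝ} (ht : 0 ≤ t) (ht2 : t ^ 2 = 4 * L + (4 * A + 2)) (d : ℕ) :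
    th t ^ d ≤ Real.exp (-((L + A) * d)) := by
  calc th t ^ d ≤ Real.exp (1 / 2 - t ^ 2 / 4) ^ d := pow_le_pow_left₀ (th_nonneg ht) (th_le t) d
    _ = Real.exp (-((L + A) * d)) := by
        rw [← Real.exp_nat_mul, ht2]
        congr 1
        ring

/-- the event bound for Gaussian normals, from the bounds of the terms -/
theorem one_step {ε c L A : ℝ} (hε : 0 < ε) (hc : 0 < c) (hL : 1 ≤ L) (hA : 0 ≤ A)
    (hAε : Real.exp (-A) ≤ ε / 4) {d N k : ℕ} (hd : 1 ≤ d) (hN : (k + 1) * d ≤ N)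
    (hk3 : 5 * (5 / 9 : ℝ) ^ k ≤ ε / 4) (hNL : (N:ℝ) ≤ Real.exp (L * d))
    {S : Finset ℝ} (hS : ∀ σ ∈ S, σ = 1 ∨ σ = -1) (h1S : (1:ℝ) ∈ S)
    (hgood : ∀ (r : ℝ), 0 < r → ∀ g : Fin N → E d,
      Nice S (fun _ => 1) r (Real.sqrt (c * d) * r) 1 g → Good ((1 + ε) ^ d) (Poly S (fun _ => 1) g))
    (hthird : (N.choose d : ℝ) * (S.card : ℝ) ^ d *
      (1 - 1 / 3 * Real.exp (-((4 * L + (4 * A + 2)) / c + 1))) ^ (N - d) ≤ (ε / 4) ^ d) :
    Law d N {g | ¬ Good ((1 + ε) ^ d) (Poly S (fun _ => 1) g)} ≤ ENNReal.ofReal (ε ^ d) := by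
  have hd0 : (0:ℝ) < d := by exact_mod_cast hd
  have hsd : 0 < Real.sqrt d := Real.sqrt_pos.2 hd0
  have hsc : 0 < Real.sqrt c := Real.sqrt_pos.2 hc
  set t : ℝ := Real.sqrt (4 * L + (4 * A + 2)) with ht
  have ht2 : t ^ 2 = 4 * L + (4 * A + 2) := Real.sq_sqrt (by linarith)
  have ht1 : 1 < t := by
    rw [ht, Real.lt_sqrt (by norm_num)]
    linarith
  have ht0 : 0 < t := by linarith
  have hr : 0 < 1 / (t * Real.sqrt d) := by positivity
  have hsub : {g : Fin N → E d | ¬ Good ((1 + ε) ^ d) (Poly S (fun _ => 1) g)} ⊆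
      {g | ¬ Nice S (fun _ => 1) (1 / (t * Real.sqrt d))
        (Real.sqrt (c * d) * (1 / (t * Real.sqrt d))) 1 g} := by
    intro g hg hn
    exact hg (hgood _ hr g hn)
  have hxe : t * Real.sqrt d / Real.sqrt (c * d) = t / Real.sqrt c := by
    rw [Real.sqrt_mul hc.le]
    field_simp
  have hx2 : (t / Real.sqrt c) ^ 2 = (4 * L + (4 * A + 2)) / c := by
    rw [div_pow, ht2, Real.sq_sqrt hc.le]
  have hq := gq_lt S h1S (x := t / Real.sqrt c) (by positivity)
  rw [hx2] at hq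
  rw [← hxe] at hq
  set v : ℝ := Real.exp (-((4 * L + (4 * A + 2)) / c + 1)) with hv
  have hv0 : 0 < v := Real.exp_pos _
  have hv1 : v ≤ 1 := by
    rw [hv, Real.exp_le_one_iff]
    have : 0 ≤ (4 * L + (4 * A + 2)) / c := by positivity
    linarith
  have h1 := pb_one (N := N) hd hS (t := t) (R := Real.sqrt (c * d)) (q' := 1 - 1/3 * v)
    ht1 (by positivity) (by linarith) hq 1 le_rfl
  refine (measure_mono hsub).trans (h1.trans ?_)
  have h2 := rec_le (d := d) (N := N) S h1S k hN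
  have h3 : (5 * (5 / 9 : ℝ) ^ k) ^ d ≤ (ε / 4) ^ d := pow_le_pow_left₀ (by positivity) hk3 d
  have h5 : Real.exp (-(A * d)) ≤ (ε / 4) ^ d := by
    calc Real.exp (-(A * d)) = Real.exp (-A) ^ d := by
          rw [← Real.exp_nat_mul]
          congr 1
          ring
      _ ≤ (ε / 4) ^ d := pow_le_pow_left₀ (Real.exp_pos _).le hAε d
  have h6 : (N:ℝ) * th t ^ d ≤ (ε / 4) ^ d := by
    refine le_trans ?_ h5
    calc (N:ℝ) * th t ^ d ≤ Real.exp (L * d) * Real.exp (-((L + A) * d)) :=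
          mul_le_mul hNL (th_pow_le ht0.le ht2 d) (pow_nonneg (th_nonneg ht0.le) d)
            (Real.exp_pos _).le
      _ = Real.exp (-(A * d)) := by
          rw [← Real.exp_add]
          congr 1
          ring
  calc Law d N {g | Rec S g} + ENNReal.ofReal (N * th t ^ d) +
      ENNReal.ofReal ((N.choose d : ℝ) * (S.card : ℝ) ^ d * (1 - 1/3 * v) ^ (N - d) / ((1:ℕ):ℝ))
      ≤ ENNReal.ofReal ((ε / 4) ^ d) + ENNReal.ofReal ((ε / 4) ^ d) +
          ENNReal.ofReal ((ε / 4) ^ d) := by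
        apply add_le_add (add_le_add _ _)
        · apply ENNReal.ofReal_le_ofReal
          simpa using hthird
        · exact h2.trans (ENNReal.ofReal_le_ofReal h3)
        · exact ENNReal.ofReal_le_ofReal h6
    _ ≤ ENNReal.ofReal (ε ^ d) := by
        rw [← ENNReal.ofReal_add (by positivity) (by positivity),
          ← ENNReal.ofReal_add (by positivity) (by positivity)]
        apply ENNReal.ofReal_le_ofReal
        have := sum3 ε hε (d := d) (by omega)
        linarith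

/-- Gaussian normals, many facets -/
theorem many_one (ε : ℝ) (hε : 0 < ε) : ∃ C d₀ : ℕ, ∀ d : ℕ, d₀ ≤ d → ∀ N : ℕ, C * d ≤ N →
    ∀ S : Finset ℝ, (∀ σ ∈ S, σ = 1 ∨ σ = -1) → (1:ℝ) ∈ S →
    Law d N {g | ¬ Good ((1 + ε) ^ d) (Poly S (fun _ => 1) g)} ≤ ENNReal.ofReal (ε ^ d) := by
  obtain ⟨c, hc, hc1, d₁, hset⟩ := setup ε hε
  set A : ℝ := max 0 (Real.log (4 / ε)) with hA
  have hA0 : 0 ≤ A := le_max_left _ _
  have hAε : Real.exp (-A) ≤ ε / 4 := by
    have h1 : Real.log (4 / ε) ≤ A := le_max_right _ _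
    calc Real.exp (-A) ≤ Real.exp (-Real.log (4 / ε)) := Real.exp_le_exp.2 (by linarith)
      _ = ε / 4 := by
          rw [Real.exp_neg, Real.exp_log (by positivity), inv_div]
  set v : ℝ := Real.exp (-((4 * 1 + (4 * A + 2)) / c + 1)) with hv
  have hv0 : 0 < v := Real.exp_pos _
  have hv1 : v ≤ 1 := by
    rw [hv, Real.exp_le_one_iff]
    have : 0 ≤ (4 * 1 + (4 * A + 2)) / c := by positivity
    linarith
  obtain ⟨k, hk, hk1, hk2, hk3⟩ := choose_k (1 - 1/3 * v) (ε / 4) (by linarith) (by linarith)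
    (by positivity)
  refine ⟨k + 1, max (max d₁ ⌈2 * ((4 + (4 * A + 2)) / c + 3)⌉₊) ⌈48 * (2 + A)⌉₊,
    fun d hd N hN S hS h1S => ?_⟩
  have hdd1 : d₁ ≤ d := (le_max_left _ _).trans ((le_max_left _ _).trans hd)
  have hdd2 : 2 * ((4 + (4 * A + 2)) / c + 3) ≤ d :=
    (Nat.le_ceil _).trans (by exact_mod_cast (le_max_right _ _).trans ((le_max_left _ _).trans hd))
  have hdd3 : 48 * (2 + A) ≤ d :=
    (Nat.le_ceil _).trans (by exact_mod_cast (le_max_right _ _).trans hd)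
  obtain ⟨hd2, hR, hgood⟩ := hset d hdd1
  have hgood' : ∀ (r : ℝ), 0 < r → ∀ g : Fin N → E d,
      Nice S (fun _ => 1) r (Real.sqrt (c * d) * r) 1 g →
      Good ((1 + ε) ^ d) (Poly S (fun _ => 1) g) := fun r hr g => hgood S hS N (fun _ => 1) r hr g
  have hd0 : (0:ℝ) < d := by exact_mod_cast (by omega : 0 < d)
  rcases le_total (N:ℝ) (Real.exp (1 * d)) with hcase | hcase
  · exact one_step hε hc le_rfl hA0 hAε (by omega) hN hk3 hcase hS h1S hgood'
      (third_small hS (by linarith) hk hk1 hk2 hN)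
  · have hNpos : (0:ℝ) < N := lt_of_lt_of_le (Real.exp_pos _) hcase
    set L : ℝ := Real.log N / d with hL
    have hLd : L * d = Real.log N := by rw [hL]; field_simp
    have hL1 : 1 ≤ L := by
      rw [hL, le_div_iff₀ hd0]
      exact (Real.le_log_iff_exp_le hNpos).2 hcase
    have hexp : Real.exp (L * d) = N := by rw [hLd, Real.exp_log hNpos]
    have h2N : 2 * d ≤ N := by
      have : 2 * d ≤ (k + 1) * d := Nat.mul_le_mul_right d (by omega)
      omega
    refine one_step hε hc hL1 hA0 hAε (by omega) hN hk3 hexp.ge hS h1S hgood' ?_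
    refine (third_huge hS hc (by linarith) hA0 hL1 (by omega) hexp h2N hdd2 hdd3).trans ?_
    calc Real.exp (-(A * d)) = Real.exp (-A) ^ d := by
          rw [← Real.exp_nat_mul]
          congr 1
          ring
      _ ≤ (ε / 4) ^ d := pow_le_pow_left₀ (Real.exp_pos _).le hAε d

end Pool.Agent.J4H48.RP
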