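import Pool.Agent.J4H48.RP.Vert

/-!
# Boundedness, and vertices seen from a bounded distance
-/

set_option autoImplicit false

open MeasureTheory ProbabilityTheory Filter Topology
open scoped RealInnerProductSpace ENNReal Matrix

namespace Pool.Agent.J4H48.RP

open Pool.Agent.PZ871 (E gm)
open Pool.Agent.TH84.HC

/-- there is a recession direction -/
def Rec {d N : ℕ} (S : Finset ℝ) (g : Fin N → E d) : Prop :=
  ∃ u : E d, u ≠ 0 ∧ ∀ i, ∀ σ ∈ S, σ * ⟪g i, u⟫ ≤ 0

theorem poly_closed {d N : ℕ} (S : Finset ℝ) (b : E d → ℝ) (g : Fin N → E d) :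
    IsClosed (Poly S b g) := by
  have : Poly S b g = ⋂ i, ⋂ σ ∈ S, {x : E d | σ * ⟪g i, x⟫ ≤ b (g i)} := by
    ext x
    simp [Poly]
  rw [this]
  exact isClosed_iInter fun i => isClosed_iInter fun σ => isClosed_iInter fun _ =>
    isClosed_le (by fun_prop) continuous_const

theorem poly_convex {d N : ℕ} (S : Finset ℝ) (b : E d → ℝ) (g : Fin N → E d) :
    Convex ℝ (Poly S b g) := by
  intro x hx y hy p q hp hq hpq i σ hσ
  rw [inner_add_right, inner_smul_right, inner_smul_right]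
  have h1 := hx i σ hσ
  have h2 := hy i σ hσ
  calc σ * (p * ⟪g i, x⟫ + q * ⟪g i, y⟫) = p * (σ * ⟪g i, x⟫) + q * (σ * ⟪g i, y⟫) := by ring
    _ ≤ p * b (g i) + q * b (g i) := by gcongr
    _ = b (g i) := by rw [← add_mul, hpq, one_mul]

theorem poly_body {d N : ℕ} (hd : 1 ≤ d) (S : Finset ℝ) (b : E d → ℝ) (g : Fin N → E d)
    (hb : ∀ i, 0 < b (g i)) (hU : ¬ Rec S g) : IsBody (Poly S b g) := by
  refine ⟨poly_convex S b g, ?_, ?_⟩
  · refine Metric.isCompact_of_isClosed_isBounded (poly_closed S b g) ?_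
    set f : E d → ℝ := fun u => ∑ i, ∑ σ ∈ S, max 0 (σ * ⟪g i, u⟫) with hf
    have hfc : Continuous f := by
      apply continuous_finsetSum
      intro i _
      apply continuous_finsetSum
      intro σ _
      fun_prop
    have hf0 : ∀ u, 0 ≤ f u := fun u =>
      Finset.sum_nonneg fun i _ => Finset.sum_nonneg fun σ _ => le_max_left _ _
    have hfpos : ∀ u : E d, u ≠ 0 → 0 < f u := by
      intro u hu
      refine lt_of_le_of_ne (hf0 u) fun h0 => hU ⟨u, hu, fun i σ hσ => ?_⟩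
      have h1 := (Finset.sum_eq_zero_iff_of_nonneg (fun i _ =>
        Finset.sum_nonneg fun σ _ => le_max_left _ _)).1 h0.symm i (Finset.mem_univ i)
      have h2 := (Finset.sum_eq_zero_iff_of_nonneg (fun σ _ => le_max_left _ _)).1 h1 σ hσ
      have h3 := le_max_right 0 (σ * ⟪g i, u⟫)
      rwa [h2] at h3
    have hsp : (Metric.sphere (0 : E d) 1).Nonempty := by
      refine ⟨EuclideanSpace.single (⟨0, hd⟩ : Fin d) (1:ℝ), ?_⟩
      simp
    obtain ⟨u0, hu0, hmin⟩ := (isCompact_sphere (0 : E d) 1).exists_isMinOn hsp hfc.continuousOn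
    have hu00 : u0 ≠ 0 := by
      intro h
      rw [h] at hu0
      simp at hu0
    have hm := hfpos u0 hu00
    set B : ℝ := ∑ i, ∑ σ ∈ S, b (g i) with hB
    refine (Metric.isBounded_closedBall (x := (0 : E d)) (r := B / f u0)).subset fun x hx => ?_
    rw [mem_closedBall_zero_iff, le_div_iff₀ hm]
    by_cases hx0 : x = 0
    · rw [hx0, norm_zero, zero_mul]
      exact Finset.sum_nonneg fun i _ => Finset.sum_nonneg fun σ _ => (hb i).le
    · have hn : 0 < ‖x‖ := norm_pos_iff.2 hx0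
      have h1 : f u0 ≤ f (‖x‖⁻¹ • x) := hmin (by simp [norm_smul, hn.ne'])
      have h2 : f x = ‖x‖ * f (‖x‖⁻¹ • x) := by
        simp only [hf, Finset.mul_sum]
        refine Finset.sum_congr rfl fun i _ => Finset.sum_congr rfl fun σ _ => ?_
        rw [mul_max_of_nonneg _ _ hn.le, mul_zero, inner_smul_right]
        congr 1
        field_simp
      have h3 : f x ≤ B := Finset.sum_le_sum fun i _ => Finset.sum_le_sum fun σ hσ =>
        max_le (hb i).le (hx i σ hσ)
      calc ‖x‖ * f u0 ≤ ‖x‖ * f (‖x‖⁻¹ • x) := mul_le_mul_of_nonneg_left h1 hn.le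
        _ = f x := h2.symm
        _ ≤ B := h3
  · refine ⟨0, ?_⟩
    rw [mem_interior]
    refine ⟨⋂ i, ⋂ σ ∈ S, {x : E d | σ * ⟪g i, x⟫ < b (g i)}, ?_, ?_, ?_⟩
    · intro x hx i σ hσ
      simp only [Set.mem_iInter] at hx
      exact (hx i σ hσ).le
    · refine isOpen_iInter_of_finite fun i => ?_
      exact isOpen_biInter_finset fun σ _ => isOpen_lt (by fun_prop) continuous_const
    · simp only [Set.mem_iInter, Set.mem_ofPred_eq, inner_zero_right, mul_zero]
      exact fun i σ _ => hb i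

/-- the dilation with factor `1 / r` -/
noncomputable def scal (d : ℕ) (r : ℝ) (hr : 0 < r) : E d ≃L[ℝ] E d :=
  (LinearEquiv.smulOfNeZero ℝ (E d) r⁻¹ (inv_ne_zero hr.ne')).toContinuousLinearEquiv

theorem scal_apply {d : ℕ} {r : ℝ} (hr : 0 < r) (x : E d) : scal d r hr x = r⁻¹ • x := rfl

theorem scal_norm {d : ℕ} {r : ℝ} (hr : 0 < r) (x : E d) : ‖scal d r hr x‖ = ‖x‖ / r := by
  rw [scal_apply, norm_smul, norm_inv, Real.norm_of_nonneg hr.le]
  ring

/-- a simple vertex is seen from a bounded distance -/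
theorem seen_simple {d N : ℕ} (hd : 1 ≤ d) (S : Finset ℝ) (hS : ∀ σ ∈ S, σ = 1 ∨ σ = -1)
    (b : E d → ℝ) (g : Fin N → E d) (hb : ∀ i, 0 < b (g i)) (hg : ∀ i, g i ≠ 0) {r : ℝ}
    (hr : 0 < r) (hball : ∀ z, ‖z‖ ≤ r → z ∈ Poly S b g) {x : E d}
    (hx : x ∈ Set.extremePoints ℝ (Poly S b g)) (s : Finset (Fin N)) (hs : s.card ≤ d)
    (hns : ∀ i ∉ s, ∀ σ ∈ S, σ * ⟪g i, x⟫ ≠ b (g i)) {R : ℝ} (hR : ‖x‖ ≤ R * r) :
    Seen (scal d r hr) d R (Poly S b g) x := by
  classical
  set φ : Fin (Fintype.card (Fin N × S)) ≃ Fin N × S := (Fintype.equivFin (Fin N × S)).symm with hφ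
  set a : Fin (Fintype.card (Fin N × S)) → E d := fun j => ((φ j).2 : ℝ) • g (φ j).1 with ha
  set b' : Fin (Fintype.card (Fin N × S)) → ℝ := fun j => b (g (φ j).1) with hb'
  have hP : Poly S b g = {y : E d | ∀ j, ⟪a j, y⟫ ≤ b' j} := by
    ext y
    constructor
    · intro hy j
      have := hy (φ j).1 (φ j).2 (φ j).2.2
      rw [ha, inner_smul_left]
      simpa using this
    · intro hy i σ hσ
      have := hy (φ.symm (i, ⟨σ, hσ⟩))
      rw [ha, hb', inner_smul_left] at this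
      simpa using this
  have hfr : x ∈ frontier (Poly S b g) := extreme_frontier hd hx
  have hS0 : ∀ σ ∈ S, σ ≠ 0 := by
    intro σ hσ
    rcases hS σ hσ with h | h <;> rw [h] <;> norm_num
  have hcount : {j | ⟪a j, x⟫ = b' j}.ncard ≤ d := by
    have h1 : ∀ j ∈ {j | ⟪a j, x⟫ = b' j}, (φ j).1 ∈ (s : Set (Fin N)) := by
      intro j hj
      by_contra hc
      refine hns (φ j).1 (by simpa using hc) (φ j).2 (φ j).2.2 ?_
      have hj' : ⟪a j, x⟫ = b' j := hj
      rw [ha, inner_smul_left] at hj'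
      simpa using hj'
    have h2 : Set.InjOn (fun j => (φ j).1) {j | ⟪a j, x⟫ = b' j} := by
      intro j hj k hk hjk
      have hj' : ⟪a j, x⟫ = b' j := hj
      have hk' : ⟪a k, x⟫ = b' k := hk
      simp only [ha, hb', inner_smul_left, conj_trivial] at hj' hk'
      have hjk' : (φ j).1 = (φ k).1 := hjk
      rw [← hjk', ← hj'] at hk'
      have hne : ⟪g (φ j).1, x⟫ ≠ 0 := by
        intro h0
        rw [h0, mul_zero] at hj'
        exact (hb _).ne hj'
      have h3 : ((φ k).2 : ℝ) = (φ j).2 := mul_right_cancel₀ hne hk'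
      apply φ.injective
      exact Prod.ext hjk' (Subtype.ext h3.symm)
    have h3 := Set.ncard_le_ncard_of_injOn (fun j => (φ j).1) h1 h2 (Finset.finite_toSet s)
    rw [Set.ncard_coe_finset] at h3
    exact h3.trans hs
  have hseen := poly_seen (m := d) a b' (fun j => ?_) (scal d r hr) 0 ?_ (x := x) ?_ hcount (R := R) ?_
  · rw [hP]
    exact hseen
  · exact smul_ne_zero (hS0 _ (φ j).2.2) (hg _)
  · intro z hz
    rw [sub_zero, scal_norm, div_le_one hr] at hz
    rw [← hP]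
    exact hball z hz
  · rw [← hP]
    exact hfr
  · rw [sub_zero, scal_norm, div_le_iff₀ hr]
    exact hR

end Pool.Agent.J4H48.RP
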