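import Pool.Agent.J4H48.RP.AsyA

/-!
# Random polytopes given by their facets: final statements
-/

set_option autoImplicit false

open MeasureTheory ProbabilityTheory Filter Topology
open scoped RealInnerProductSpace ENNReal Matrix

namespace Pool.Agent.J4H48.RP

open Pool.Agent.PZ871 (E gm)
open Pool.Agent.TH84.HC

/-- the polyhedron of all `x` with `⟪g i, x⟫ ≤ b (g i)` for all `i` -/
def One {d N : ℕ} (b : E d → ℝ) (g : Fin N → E d) : Set (E d) := {x | ∀ i, ⟪g i, x⟫ ≤ b (g i)}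

/-- the symmetric polyhedron of all `x` with `|⟪g i, x⟫| ≤ b (g i)` for all `i` -/
def Sym {d N : ℕ} (b : E d → ℝ) (g : Fin N → E d) : Set (E d) := {x | ∀ i, |⟪g i, x⟫| ≤ b (g i)}

/-- the two widths: `‖a‖` (all facets touch the unit ball, at the points `a / ‖a‖`) and `1` (the
polyhedron is the polar body of the points `a`) -/
def Width {d : ℕ} (b : E d → ℝ) : Prop := b = (fun a => ‖a‖) ∨ b = (fun _ => 1)

theorem one_eq {d N : ℕ} (b : E d → ℝ) (g : Fin N → E d) : One b g = Poly {1} b g := by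
  ext x
  simp [One, Poly]

theorem sym_eq {d N : ℕ} (b : E d → ℝ) (g : Fin N → E d) : Sym b g = Poly {1, -1} b g := by
  ext x
  simp only [Sym, Poly, Set.mem_ofPred_eq, Finset.mem_insert, Finset.mem_singleton,
    forall_eq_or_imp, forall_eq, one_mul, neg_mul]
  refine forall_congr' fun i => ?_
  rw [abs_le]
  constructor
  · rintro ⟨h1, h2⟩
    exact ⟨h2, by linarith⟩
  · rintro ⟨h1, h2⟩
    exact ⟨by linarith, h1⟩

/-- both widths at once -/
theorem lin_both {S : Finset ℝ} {k : ℕ} {q : ℝ} (h : Dat S k q) : ∃ η : ℝ, 0 < η ∧ η < 1 ∧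
    ∃ d₀ : ℕ, ∀ d : ℕ, d₀ ≤ d → ∀ N : ℕ, (k + 1) * d ≤ N → ∀ b : E d → ℝ, Width b →
    Law d N {g | ¬ Good (1.99 ^ d) (Poly S b g)} ≤ ENNReal.ofReal (η ^ d) := by
  obtain ⟨η₁, h1, h2, d₁, h3⟩ := lin_norm h
  obtain ⟨η₂, h4, h5, d₂, h6⟩ := lin_one h
  refine ⟨max η₁ η₂, lt_max_of_lt_left h1, max_lt h2 h5, max d₁ d₂, fun d hd N hN b hb => ?_⟩
  rcases hb with rfl | rfl
  · refine (h3 d ((le_max_left _ _).trans hd) N hN).trans (ENNReal.ofReal_le_ofReal ?_)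
    exact pow_le_pow_left₀ h1.le (le_max_left _ _) d
  · refine (h6 d ((le_max_right _ _).trans hd) N hN).trans (ENNReal.ofReal_le_ofReal ?_)
    exact pow_le_pow_left₀ h4.le (le_max_right _ _) d

theorem many_both (ε : ℝ) (hε : 0 < ε) : ∃ C d₀ : ℕ, ∀ d : ℕ, d₀ ≤ d → ∀ N : ℕ, C * d ≤ N →
    ∀ b : E d → ℝ, Width b → ∀ S : Finset ℝ, (∀ σ ∈ S, σ = 1 ∨ σ = -1) → (1:ℝ) ∈ S →
    Law d N {g | ¬ Good ((1 + ε) ^ d) (Poly S b g)} ≤ ENNReal.ofReal (ε ^ d) := by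
  obtain ⟨C₁, d₁, h1⟩ := many_norm ε hε
  obtain ⟨C₂, d₂, h2⟩ := many_one ε hε
  refine ⟨max C₁ C₂, max d₁ d₂, fun d hd N hN b hb S hS h1S => ?_⟩
  rcases hb with rfl | rfl
  · exact h1 d ((le_max_left _ _).trans hd) N
      ((Nat.mul_le_mul_right d (le_max_left _ _)).trans hN) S hS h1S
  · exact h2 d ((le_max_right _ _).trans hd) N
      ((Nat.mul_le_mul_right d (le_max_right _ _)).trans hN) S hS h1S

/-- **Random polytopes given by their facets.** -/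
theorem facets :
    -- linearly many facets: less than `1.99 ^ d` translates
    (∃ η : ℝ, η < 1 ∧ ∃ d₀ : ℕ, ∀ d : ℕ, d₀ ≤ d → ∀ b : E d → ℝ, Width b → ∀ N : ℕ,
      (10 * d ≤ N → Law d N {g | ¬ Good (1.99 ^ d) (Sym b g)} ≤ ENNReal.ofReal (η ^ d)) ∧
      (22 * d ≤ N → Law d N {g | ¬ Good (1.99 ^ d) (One b g)} ≤ ENNReal.ofReal (η ^ d))) ∧
    -- many facets: less than `(1 + ε) ^ d` translates
    (∀ ε : ℝ, 0 < ε → ∃ C d₀ : ℕ, ∀ d : ℕ, d₀ ≤ d → ∀ b : E d → ℝ, Width b → ∀ N : ℕ, C * d ≤ N →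
      Law d N {g | ¬ Good ((1 + ε) ^ d) (Sym b g)} ≤ ENNReal.ofReal (ε ^ d) ∧
      Law d N {g | ¬ Good ((1 + ε) ^ d) (One b g)} ≤ ENNReal.ofReal (ε ^ d)) := by
  constructor
  · obtain ⟨η₁, h0, h1, d₁, h2⟩ := lin_both dat_sym
    obtain ⟨η₂, h0', h3, d₂, h4⟩ := lin_both dat_one
    refine ⟨max η₁ η₂, max_lt h1 h3, max d₁ d₂,
      fun d hd b hb N => ⟨fun hN => ?_, fun hN => ?_⟩⟩
    · simp only [sym_eq]
      refine (h2 d ((le_max_left _ _).trans hd) N hN b hb).trans (ENNReal.ofReal_le_ofReal ?_)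
      exact pow_le_pow_left₀ h0.le (le_max_left _ _) d
    · simp only [one_eq]
      refine (h4 d ((le_max_right _ _).trans hd) N hN b hb).trans (ENNReal.ofReal_le_ofReal ?_)
      exact pow_le_pow_left₀ h0'.le (le_max_right _ _) d
  · intro ε hε
    obtain ⟨C, d₀, h⟩ := many_both ε hε
    refine ⟨C, d₀, fun d hd b hb N hN => ⟨?_, ?_⟩⟩
    · simp only [sym_eq]
      exact h d hd N hN b hb {1, -1} dat_sym.hS (by simp)
    · simp only [one_eq]
      exact h d hd N hN b hb {1} dat_one.hS (by simp)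

end Pool.Agent.J4H48.RP
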