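import Pool.Agent.J4H48.RP.Prob

/-!
# Gaussian facts
-/

set_option autoImplicit false

open MeasureTheory ProbabilityTheory Filter Topology
open scoped RealInnerProductSpace ENNReal Matrix

namespace Pool.Agent.J4H48.RP

open Pool.Agent.PZ871 (E gm)
open Pool.Agent.TH84.HC

theorem gm_ac (d : ℕ) : gm d ≪ (volume : Measure (E d)) := by
  rw [Pool.Agent.PZ871.M_gdens.gdens]
  exact withDensity_absolutelyContinuous _ _

theorem gm_submodule {d : ℕ} (W : Submodule ℝ (E d)) (hW : W ≠ ⊤) : gm d (W : Set (E d)) = 0 :=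
  gm_ac d (Measure.addHaar_submodule volume W hW)

theorem gm_zero {d : ℕ} (hd : 1 ≤ d) : gm d {(0 : E d)} = 0 := by
  have : Nontrivial (E d) := by
    refine ⟨⟨EuclideanSpace.single (⟨0, hd⟩ : Fin d) (1:ℝ), 0, fun h => ?_⟩⟩
    have := congrArg norm h
    simp at this
  have := gm_submodule (⊥ : Submodule ℝ (E d)) bot_ne_top
  simpa using this

/-- there is a nonzero vector orthogonal to `v` in dimension at least two -/
theorem exists_orth {d : ℕ} (hd : 2 ≤ d) (v : E d) : ∃ w : E d, w ≠ 0 ∧ ⟪w, v⟫ = 0 := by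
  have h1 : (ℝ ∙ v)ᗮ ≠ ⊥ := by
    rw [Ne, Submodule.orthogonal_eq_bot_iff]
    intro h
    have h2 : Module.finrank ℝ (ℝ ∙ v) ≤ 1 := (finrank_span_le_card ({v} : Set (E d))).trans (by simp)
    rw [h, finrank_top, finrank_euclideanSpace_fin] at h2
    omega
  obtain ⟨w, hw, hw0⟩ := Submodule.exists_mem_ne_zero_of_ne_bot h1
  refine ⟨w, hw0, ?_⟩
  have := (Submodule.mem_orthogonal_singleton_iff_inner_left).1 hw
  exact this

theorem null_norm {d : ℕ} (hd : 2 ≤ d) (v : E d) (τ : ℝ) :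
    gm d {a | τ * ⟪a, v⟫ = ‖a‖} = 0 := by
  apply gm_ac
  set C : Set (E d) := {a | ‖a‖ ≤ τ * ⟪a, v⟫} with hC
  have hCc : Convex ℝ C := by
    intro x hx y hy p q hp hq hpq
    have hx' : ‖x‖ ≤ τ * ⟪x, v⟫ := hx
    have hy' : ‖y‖ ≤ τ * ⟪y, v⟫ := hy
    show ‖p • x + q • y‖ ≤ τ * ⟪p • x + q • y, v⟫
    rw [inner_add_left, inner_smul_left, inner_smul_left]
    refine (norm_add_le _ _).trans ?_
    rw [norm_smul, norm_smul, Real.norm_of_nonneg hp, Real.norm_of_nonneg hq]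
    simp only [conj_trivial]
    nlinarith [mul_le_mul_of_nonneg_left hx' hp, mul_le_mul_of_nonneg_left hy' hq]
  refine measure_mono_null ?_ (hCc.addHaar_frontier volume)
  intro a ha
  have ha' : τ * ⟪a, v⟫ = ‖a‖ := ha
  refine ⟨subset_closure ha'.ge, fun hint => ?_⟩
  obtain ⟨w, hw0, hwv⟩ := exists_orth hd v
  have h1 : ∀ᶠ t in 𝓝 (0:ℝ), a + t • w ∈ C := by
    have hc : Continuous (fun t : ℝ => a + t • w) := by fun_prop
    have h2 : ∀ᶠ z in 𝓝 (a + (0:ℝ) • w), z ∈ C := by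
      rw [zero_smul, add_zero]
      exact mem_interior_iff_mem_nhds.1 hint
    exact hc.continuousAt.eventually h2
  have h2 : ∀ᶠ t in 𝓝 (0:ℝ), a + (-t) • w ∈ C := by
    have h3 : Filter.Tendsto (fun t : ℝ => -t) (𝓝 0) (𝓝 0) := by
      have := (continuous_neg (G := ℝ)).tendsto 0
      simpa using this
    exact h3.eventually h1
  obtain ⟨t, ⟨ht1, ht2⟩, ht⟩ := (((h1.and h2).filter_mono nhdsWithin_le_nhds).and
    (self_mem_nhdsWithin (a := (0:ℝ)) (s := Set.Ioi 0))).exists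
  have ht0 : (0:ℝ) < t := ht
  have k1 : ‖a + t • w‖ ≤ ‖a‖ := by
    have : ‖a + t • w‖ ≤ τ * ⟪a + t • w, v⟫ := ht1
    rwa [inner_add_left, inner_smul_left, hwv, mul_zero, add_zero, ha'] at this
  have k2 : ‖a + (-t) • w‖ ≤ ‖a‖ := by
    have : ‖a + (-t) • w‖ ≤ τ * ⟪a + (-t) • w, v⟫ := ht2
    rwa [inner_add_left, inner_smul_left, hwv, mul_zero, add_zero, ha'] at this
  have k3 := parallelogram_law_with_norm ℝ a (t • w)
  have k4 : a + (-t) • w = a - t • w := by rw [neg_smul, sub_eq_add_neg]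
  rw [k4] at k2
  have k5 : 0 < ‖t • w‖ := norm_pos_iff.2 (smul_ne_zero ht0.ne' hw0)
  nlinarith [norm_nonneg (a + t • w), norm_nonneg (a - t • w), norm_nonneg a]

theorem null_one {d : ℕ} (v : E d) (τ : ℝ) : gm d {a | τ * ⟪a, v⟫ = 1} = 0 := by
  apply gm_ac
  set C : Set (E d) := {a | 1 ≤ τ * ⟪a, v⟫} with hC
  have hCc : Convex ℝ C := by
    intro x hx y hy p q hp hq hpq
    have hx' : 1 ≤ τ * ⟪x, v⟫ := hx
    have hy' : 1 ≤ τ * ⟪y, v⟫ := hy
    show 1 ≤ τ * ⟪p • x + q • y, v⟫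
    rw [inner_add_left, inner_smul_left, inner_smul_left]
    simp only [conj_trivial]
    nlinarith [mul_le_mul_of_nonneg_left hx' hp, mul_le_mul_of_nonneg_left hy' hq]
  refine measure_mono_null ?_ (hCc.addHaar_frontier volume)
  intro a ha
  have ha' : τ * ⟪a, v⟫ = 1 := ha
  refine ⟨subset_closure ha'.ge, fun hint => ?_⟩
  have h1 : ∀ᶠ t in 𝓝 (1:ℝ), t • a ∈ C := by
    have hc : Continuous (fun t : ℝ => t • a) := by fun_prop
    have h2 : ∀ᶠ z in 𝓝 ((1:ℝ) • a), z ∈ C := by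
      rw [one_smul]
      exact mem_interior_iff_mem_nhds.1 hint
    exact hc.continuousAt.eventually h2
  obtain ⟨t, ht1, ht⟩ := ((h1.filter_mono nhdsWithin_le_nhds).and
    (self_mem_nhdsWithin (a := (1:ℝ)) (s := Set.Iio 1))).exists
  have ht0 : t < 1 := ht
  have : 1 ≤ τ * ⟪t • a, v⟫ := ht1
  rw [inner_smul_left, conj_trivial] at this
  nlinarith

/-- the exponential moment of the square of the norm -/
theorem expmomL (n : ℕ) (x : ℝ) (hx1 : x < 1) :
    ∫⁻ y, ENNReal.ofReal (Real.exp (x * ‖y‖ ^ 2 / 2)) ∂(gm n) =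
      ENNReal.ofReal ((1 - x) ^ (-((n : ℝ) / 2))) := by
  rw [glint n _ (by fun_prop)]
  have h0 : 0 < (1 - x) / 2 := by linarith
  have h1 : ∫ v : E n, Real.exp (-((1 - x) / 2) * ‖v‖ ^ 2) =
      (Real.pi / ((1 - x) / 2)) ^ ((n : ℝ) / 2) := by
    have := GaussianFourier.integral_rexp_neg_mul_sq_norm (V := E n) (b := (1 - x) / 2) h0
    rw [this]
    congr 2
    simp
  have hi : Integrable (fun v : E n => Real.exp (-((1 - x) / 2) * ‖v‖ ^ 2)) := by
    by_contra hc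
    rw [integral_undef hc] at h1
    have : (0:ℝ) < (Real.pi / ((1 - x) / 2)) ^ ((n : ℝ) / 2) := by positivity
    linarith
  have e : ∀ y : E n, ENNReal.ofReal ((2 * Real.pi) ^ (-(n:ℝ)/2) * Real.exp (-‖y‖^2/2)) *
      ENNReal.ofReal (Real.exp (x * ‖y‖ ^ 2 / 2)) =
      ENNReal.ofReal ((2 * Real.pi) ^ (-(n:ℝ)/2) * Real.exp (-((1 - x) / 2) * ‖y‖ ^ 2)) := by
    intro y
    rw [← ENNReal.ofReal_mul (by positivity), mul_assoc, ← Real.exp_add]
    congr 3
    ring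
  simp only [e]
  rw [← ofReal_integral_eq_lintegral_ofReal (hi.const_mul _)
    (Filter.Eventually.of_forall fun x => by positivity), integral_const_mul, h1]
  congr 1
  have h2 : 0 < 1 - x := by linarith
  have e2 : Real.pi / ((1 - x) / 2) = (2 * Real.pi) * (1 - x)⁻¹ := by field_simp
  rw [e2, Real.mul_rpow (x := 2 * Real.pi) (by positivity) (by positivity), ← mul_assoc,
    ← Real.rpow_add (by positivity)]
  have e3 : -(n:ℝ)/2 + (n:ℝ)/2 = 0 := by ring
  rw [e3, Real.rpow_zero, one_mul, Real.inv_rpow h2.le, Real.rpow_neg h2.le]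

/-- the Gaussian norm: large deviations -/
theorem norm_tail (n : ℕ) (t : ℝ) (ht : 1 < t) :
    gm n {y | t * Real.sqrt n ≤ ‖y‖} ≤ ENNReal.ofReal ((t * Real.exp (-((t ^ 2 - 1) / 2))) ^ n) := by
  have ht0 : 0 < t := by linarith
  have ht2 : 1 < t ^ 2 := by nlinarith
  set x : ℝ := 1 - (t ^ 2)⁻¹ with hx
  have hx1 : x < 1 := by
    have : 0 < (t ^ 2)⁻¹ := by positivity
    linarith
  have hx0 : 0 < x := by
    have : (t ^ 2)⁻¹ < 1 := inv_lt_one_of_one_lt₀ ht2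
    linarith
  have h1 := mul_meas_ge_le_lintegral (μ := gm n)
    (f := fun y : E n => ENNReal.ofReal (Real.exp (x * ‖y‖ ^ 2 / 2))) (by fun_prop)
    (ENNReal.ofReal (Real.exp (x * (t ^ 2 * n) / 2)))
  rw [expmomL n x hx1] at h1
  have h2 : {y : E n | t * Real.sqrt n ≤ ‖y‖} ⊆
      {y : E n | ENNReal.ofReal (Real.exp (x * (t ^ 2 * n) / 2)) ≤
      ENNReal.ofReal (Real.exp (x * ‖y‖ ^ 2 / 2))} := by
    intro y hy
    have hy' : t * Real.sqrt n ≤ ‖y‖ := hy
    apply ENNReal.ofReal_le_ofReal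
    apply Real.exp_le_exp.2
    have h3 := pow_le_pow_left₀ (by positivity) hy' 2
    rw [mul_pow, Real.sq_sqrt (Nat.cast_nonneg n)] at h3
    have := mul_le_mul_of_nonneg_left h3 hx0.le
    linarith
  have h3 : ENNReal.ofReal (Real.exp (x * (t ^ 2 * n) / 2)) * gm n {y | t * Real.sqrt n ≤ ‖y‖} ≤
      ENNReal.ofReal ((1 - x) ^ (-((n : ℝ) / 2))) :=
    (mul_le_mul' le_rfl (measure_mono h2)).trans h1
  have h4 : gm n {y | t * Real.sqrt n ≤ ‖y‖} ≤
      ENNReal.ofReal ((1 - x) ^ (-((n : ℝ) / 2))) / ENNReal.ofReal (Real.exp (x * (t ^ 2 * n) / 2)) := by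
    rw [ENNReal.le_div_iff_mul_le (Or.inl (by positivity)) (Or.inl ENNReal.ofReal_ne_top), mul_comm]
    exact h3
  refine h4.trans_eq ?_
  rw [← ENNReal.ofReal_div_of_pos (Real.exp_pos _)]
  congr 1
  have h5 : (1 - x) ^ (-((n : ℝ) / 2)) = t ^ n := by
    have : 1 - x = (t ^ 2)⁻¹ := by rw [hx]; ring
    rw [this, Real.inv_rpow (by positivity), Real.rpow_neg (by positivity), inv_inv,
      ← Real.rpow_natCast t 2, ← Real.rpow_mul ht0.le, ← Real.rpow_natCast t n]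
    congr 1
    push_cast
    ring
  have h6 : x * (t ^ 2 * n) / 2 = (t ^ 2 - 1) / 2 * n := by
    rw [hx]
    field_simp
  rw [h5, h6, mul_pow, ← Real.exp_nat_mul, div_eq_mul_inv, ← Real.exp_neg]
  congr 2
  ring

theorem map_inner {d : ℕ} (θ : E d) (hθ : ‖θ‖ = 1) :
    (gm d).map (fun a => ⟪a, θ⟫) = g1 := by
  have : IsGaussian (gm d) := inferInstanceAs (IsGaussian (stdGaussian (E d)))
  have h1 := IsGaussian.map_eq_gaussianReal (μ := gm d) (innerSL ℝ θ)
  have h2 : (fun a : E d => ⟪a, θ⟫) = (innerSL ℝ θ : E d → ℝ) := by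
    funext a
    rw [innerSL_apply_apply, real_inner_comm]
  rw [h2, h1]
  have h3 : (gm d)[(innerSL ℝ θ : E d → ℝ)] = 0 := integral_strongDual_stdGaussian (E := E d) _
  have h4 : Var[(innerSL ℝ θ : E d → ℝ); gm d] = 1 := by
    have := variance_dual_stdGaussian (E := E d) (innerSL ℝ θ)
    rw [innerSL_apply_norm, hθ, one_pow] at this
    exact this
  rw [h3, h4]
  simp

end Pool.Agent.J4H48.RP
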