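import Pool.Agent.J4H48.RP.Tails

/-!
# The two models
-/

set_option autoImplicit false

open MeasureTheory ProbabilityTheory Filter Topology
open scoped RealInnerProductSpace ENNReal Matrix

namespace Pool.Agent.J4H48.RP

open Pool.Agent.PZ871 (E gm)
open Pool.Agent.TH84.HC

/-- `K` is a convex body covered by at most `y` translates of its interior -/
def Good {d : ℕ} (y : ℝ) (K : Set (E d)) : Prop := IsBody K ∧ CoveredBy y K

theorem Good.mono {d : ℕ} {y z : ℝ} {K : Set (E d)} (h : Good y K) (hyz : y ≤ z) : Good z K := by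
  obtain ⟨h1, T, hT, h2⟩ := h
  exact ⟨h1, T, hT.trans hyz, h2⟩

/-- the law of `N` independent Gaussian vectors -/
noncomputable abbrev Law (d N : ℕ) : Measure (Fin N → E d) := Measure.pi fun _ : Fin N => gm d

theorem seen_of_nice {d N : ℕ} (hd : 1 ≤ d) {S : Finset ℝ} (hS : ∀ σ ∈ S, σ = 1 ∨ σ = -1)
    {b : E d → ℝ} {r R : ℝ} (hr : 0 < r) {M : ℕ} {g : Fin N → E d}
    (h : Nice S b r (R * r) M g) : IsBody (Poly S b g) ∧ ∃ F : Finset (E d), F.card < M ∧
      ∀ x ∈ Set.extremePoints ℝ (Poly S b g), x ∉ F → Seen (scal d r hr) d R (Poly S b g) x := by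
  obtain ⟨h1, h2, h3, h4, F, hF, h5⟩ := h
  refine ⟨poly_body hd S b g h1 h3, F, hF, fun x hx hxF => ?_⟩
  obtain ⟨h6, s, hs, h7⟩ := h5 x hx hxF
  refine seen_simple hd S hS b g h1 h2 hr ?_ hx s hs h7 h6
  intro z hz i σ hσ
  have h8 : |⟪g i, z⟫| ≤ ‖g i‖ * ‖z‖ := abs_real_inner_le_norm _ _
  have h9 : σ * ⟪g i, z⟫ ≤ |⟪g i, z⟫| := by
    rcases hS σ hσ with h | h
    · rw [h, one_mul]
      exact le_abs_self _
    · rw [h, neg_one_mul]
      exact neg_le_abs _
  calc σ * ⟪g i, z⟫ ≤ ‖g i‖ * ‖z‖ := h9.trans h8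
    _ ≤ ‖g i‖ * r := mul_le_mul_of_nonneg_left hz (norm_nonneg _)
    _ = r * ‖g i‖ := mul_comm _ _
    _ ≤ b (g i) := h4 i

theorem good_of_nice {d N : ℕ} (hd : 1 ≤ d) {S : Finset ℝ} (hS : ∀ σ ∈ S, σ = 1 ∨ σ = -1)
    {b : E d → ℝ} {r R : ℝ} (hr : 0 < r) (hR : 1 ≤ R) {M : ℕ} {g : Fin N → E d}
    (h : Nice S b r (R * r) M g) : Good (M + bnd d d R) (Poly S b g) := by
  obtain ⟨h1, F, hF, h2⟩ := seen_of_nice hd hS hr h
  obtain ⟨T, hT, h3⟩ := explicit_F d d hd R hR _ (scal d r hr) h1 F h2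
  refine ⟨h1, T, hT.trans ?_, h3⟩
  have : (F.card : ℝ) ≤ M := by exact_mod_cast hF.le
  linarith

/-- the rate of the norm tail -/
noncomputable def th (t : ℝ) : ℝ := t * Real.exp (-((t ^ 2 - 1) / 2))

theorem th_nonneg {t : ℝ} (ht : 0 ≤ t) : 0 ≤ th t := by
  unfold th
  positivity

theorem third_le (N d : ℕ) (S : Finset ℝ) (q : ℝ≥0∞) (q' : ℝ) (hq0 : 0 ≤ q')
    (hq : q ≤ ENNReal.ofReal q') (M : ℕ) (hM : 1 ≤ M) :
    (N.choose d : ℝ≥0∞) * (S.card : ℝ≥0∞) ^ d * q ^ (N - d) / M ≤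
      ENNReal.ofReal ((N.choose d : ℝ) * (S.card : ℝ) ^ d * q' ^ (N - d) / M) := by
  have hM0 : (0:ℝ) < M := by exact_mod_cast hM
  rw [ENNReal.ofReal_div_of_pos hM0, ENNReal.ofReal_natCast]
  gcongr
  rw [ENNReal.ofReal_mul (by positivity), ENNReal.ofReal_mul (by positivity),
    ENNReal.ofReal_natCast, ENNReal.ofReal_pow (by positivity), ENNReal.ofReal_natCast,
    ENNReal.ofReal_pow hq0]
  gcongr

/-- facets tangent to the unit ball -/
theorem pb_norm {d N : ℕ} (hd : 2 ≤ d) {S : Finset ℝ} (hS : ∀ σ ∈ S, σ = 1 ∨ σ = -1)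
    {t R q' : ℝ} (ht : 1 < t) (hR : 0 < R) (hq0 : 0 ≤ q')
    (hq : gq S (t * Real.sqrt d / R) + ENNReal.ofReal (th t ^ d) ≤ ENNReal.ofReal q')
    (M : ℕ) (hM : 1 ≤ M) :
    Law d N {g | ¬ Nice S (fun a => ‖a‖) 1 (R * 1) M g} ≤
      Law d N {g | Rec S g} +
      ENNReal.ofReal ((N.choose d : ℝ) * (S.card : ℝ) ^ d * q' ^ (N - d) / M) := by
  have hd0 : (0:ℝ) < d := by exact_mod_cast (by omega : 0 < d)
  have hs : 0 < Real.sqrt d := Real.sqrt_pos.2 hd0
  have h1 := core (N := N) (gm d) hS (b := fun a => ‖a‖) (by fun_prop) (r := 1) (ρ := R * 1)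
    (q := gq S (t * Real.sqrt d / R) + ENNReal.ofReal (th t ^ d)) ?_ ?_ ?_ (gm_zero (by omega)) M hM
  · have h2 : {g : Fin N → E d | ∃ i, ‖g i‖ < 1 * ‖g i‖} = ∅ := by
      ext g
      simp
    rw [h2, measure_empty, add_zero] at h1
    exact h1.trans (add_le_add le_rfl (third_le N d S _ q' hq0 hq M hM))
  · intro v hv
    have h3 := con_norm S (x := t * Real.sqrt d / R) (y := t * Real.sqrt d) (by positivity)
      (by positivity) (v := v) (by
        rw [mul_one] at hv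
        rwa [div_div_cancel₀ (by positivity)])
    exact h3.trans (add_le_add le_rfl (norm_tail d t ht))
  · intro v τ _
    exact null_norm hd v τ
  · have : {a : E d | ‖a‖ ≤ 0} = {0} := by
      ext a
      simp
    rw [this]
    exact gm_zero (by omega)

/-- Gaussian normals -/
theorem pb_one {d N : ℕ} (hd : 1 ≤ d) {S : Finset ℝ} (hS : ∀ σ ∈ S, σ = 1 ∨ σ = -1)
    {t R q' : ℝ} (ht : 1 < t) (hR : 0 < R) (hq0 : 0 ≤ q')
    (hq : gq S (t * Real.sqrt d / R) ≤ ENNReal.ofReal q')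
    (M : ℕ) (hM : 1 ≤ M) :
    Law d N {g | ¬ Nice S (fun _ => 1) (1 / (t * Real.sqrt d)) (R * (1 / (t * Real.sqrt d))) M g} ≤
      Law d N {g | Rec S g} + ENNReal.ofReal (N * th t ^ d) +
      ENNReal.ofReal ((N.choose d : ℝ) * (S.card : ℝ) ^ d * q' ^ (N - d) / M) := by
  have hd0 : (0:ℝ) < d := by exact_mod_cast hd
  have hs : 0 < Real.sqrt d := Real.sqrt_pos.2 hd0
  have h1 := core (N := N) (gm d) hS (b := fun _ => 1) (by fun_prop) (r := 1 / (t * Real.sqrt d))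
    (ρ := R * (1 / (t * Real.sqrt d)))
    (q := gq S (t * Real.sqrt d / R)) ?_ ?_ ?_ (gm_zero hd) M hM
  · refine h1.trans (add_le_add (add_le_add le_rfl ?_) (third_le N d S _ q' hq0 hq M hM))
    have h2 : {g : Fin N → E d | ∃ i, 1 < 1 / (t * Real.sqrt d) * ‖g i‖} ⊆
        ⋃ i : Fin N, (Function.eval i) ⁻¹' {a | t * Real.sqrt d ≤ ‖a‖} := by
      rintro g ⟨i, hi⟩
      rw [Set.mem_iUnion]
      refine ⟨i, ?_⟩
      show t * Real.sqrt d ≤ ‖g i‖
      rw [one_div, inv_mul_eq_div, lt_div_iff₀ (by positivity), one_mul] at hi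
      exact hi.le
    refine (measure_mono h2).trans ((measure_iUnion_fintype_le _ _).trans ?_)
    have h3 : ∀ i : Fin N, Law d N ((Function.eval i) ⁻¹' {a | t * Real.sqrt d ≤ ‖a‖}) ≤
        ENNReal.ofReal (th t ^ d) := by
      intro i
      rw [(measurePreserving_eval (fun _ : Fin N => gm d) i).measure_preimage
        (measurableSet_le measurable_const (by fun_prop)).nullMeasurableSet]
      exact norm_tail d t ht
    refine (Finset.sum_le_sum fun i _ => h3 i).trans ?_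
    rw [Finset.sum_const, Finset.card_univ, Fintype.card_fin, nsmul_eq_mul,
      ENNReal.ofReal_mul (by positivity), ENNReal.ofReal_natCast]
  · intro v hv
    refine con_one S (x := t * Real.sqrt d / R) (by positivity) ?_
    rw [one_div_div, div_eq_mul_one_div]
    exact hv
  · intro v τ _
    exact null_one v τ
  · have : {a : E d | (1:ℝ) ≤ 0} = ∅ := by
      ext a
      simp
    rw [this, measure_empty]

end Pool.Agent.J4H48.RP
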