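import Pool.Agent.J4H48.RP.Wendel

/-!
# Numerical lemmas
-/

set_option autoImplicit false

open MeasureTheory ProbabilityTheory Filter Topology
open scoped RealInnerProductSpace ENNReal Matrix

namespace Pool.Agent.J4H48.RP

open Pool.Agent.PZ871 (E gm)
open Pool.Agent.TH84.HC

/-- partial binomial sums -/
theorem sum_choose_le (N d : ℕ) (hdN : d ≤ N) (c : ℝ) (hc : 2 ≤ c) :
    (∑ k ∈ Finset.Iic d, (N.choose k : ℝ)) ≤ c ^ d * (c / (c - 1)) ^ (N - d) := by
  have hc1 : 0 < c - 1 := by linarith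
  set p : ℝ := 1 / c with hp
  set p' : ℝ := (c - 1) / c with hp'
  have hp0 : 0 < p := by positivity
  have hp0' : 0 < p' := by positivity
  have hpp : p + p' = 1 := by rw [hp, hp']; field_simp; ring
  have hle : p ≤ p' := by
    rw [hp, hp']
    gcongr
    linarith
  have h1 : ∀ k ∈ Finset.Iic d, p ^ d * p' ^ (N - d) * (N.choose k : ℝ) ≤
      p ^ k * p' ^ (N - k) * (N.choose k : ℝ) := by
    intro k hk
    have hkd : k ≤ d := Finset.mem_Iic.1 hk
    apply mul_le_mul_of_nonneg_right _ (Nat.cast_nonneg _)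
    have e1 : p ^ d = p ^ k * p ^ (d - k) := by rw [← pow_add]; congr 1; omega
    have e2 : p' ^ (N - k) = p' ^ (d - k) * p' ^ (N - d) := by rw [← pow_add]; congr 1; omega
    rw [e1, e2, mul_assoc]
    apply mul_le_mul_of_nonneg_left _ (by positivity)
    apply mul_le_mul_of_nonneg_right _ (by positivity)
    exact pow_le_pow_left₀ hp0.le hle _
  have h2 : ∑ k ∈ Finset.Iic d, p ^ k * p' ^ (N - k) * (N.choose k : ℝ) ≤ 1 := by
    have h3 := add_pow p p' N
    rw [hpp, one_pow] at h3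
    rw [h3]
    apply Finset.sum_le_sum_of_subset_of_nonneg
    · intro k hk
      have hkd : k ≤ d := Finset.mem_Iic.1 hk
      exact Finset.mem_range.2 (by omega)
    · intro k _ _
      positivity
  have h3 : p ^ d * p' ^ (N - d) * (∑ k ∈ Finset.Iic d, (N.choose k : ℝ)) ≤ 1 := by
    rw [Finset.mul_sum]
    exact (Finset.sum_le_sum h1).trans h2
  have h4 : c ^ d * (c / (c - 1)) ^ (N - d) * (p ^ d * p' ^ (N - d)) = 1 := by
    have e1 : c * p = 1 := by rw [hp]; field_simp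
    have e2 : c / (c - 1) * p' = 1 := by rw [hp']; field_simp
    calc c ^ d * (c / (c - 1)) ^ (N - d) * (p ^ d * p' ^ (N - d)) =
        (c * p) ^ d * (c / (c - 1) * p') ^ (N - d) := by rw [mul_pow, mul_pow]; ring
      _ = 1 := by rw [e1, e2, one_pow, one_pow, one_mul]
  calc (∑ k ∈ Finset.Iic d, (N.choose k : ℝ)) =
      c ^ d * (c / (c - 1)) ^ (N - d) * (p ^ d * p' ^ (N - d) *
        (∑ k ∈ Finset.Iic d, (N.choose k : ℝ))) := by
        rw [← mul_assoc, h4, one_mul]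
    _ ≤ c ^ d * (c / (c - 1)) ^ (N - d) * 1 :=
        mul_le_mul_of_nonneg_left h3 (by positivity)
    _ = _ := mul_one _

theorem choose_le (N d : ℕ) (hdN : d ≤ N) (c : ℝ) (hc : 2 ≤ c) :
    (N.choose d : ℝ) ≤ c ^ d * (c / (c - 1)) ^ (N - d) := by
  refine le_trans ?_ (sum_choose_le N d hdN c hc)
  exact Finset.single_le_sum (f := fun k => (N.choose k : ℝ)) (fun k _ => Nat.cast_nonneg _)
    (Finset.mem_Iic.2 le_rfl)

/-- the rate of the number of far vertices -/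
theorem choose_pow_le (N d k : ℕ) (hk : 1 ≤ k) (hN : (k + 1) * d ≤ N) (q : ℝ) (hq0 : 0 ≤ q)
    (hq : q * ((k + 1 : ℝ) / k) ≤ 1) :
    (N.choose d : ℝ) * q ^ (N - d) ≤ ((k + 1 : ℝ) * (q * ((k + 1 : ℝ) / k)) ^ k) ^ d := by
  have hkd : k * d ≤ N - d := by
    have : (k + 1) * d = k * d + d := by ring
    omega
  have hdN : d ≤ N := by
    have : (k + 1) * d = k * d + d := by ring
    omega
  have hk0 : (1:ℝ) ≤ k := by exact_mod_cast hk
  have h1 := choose_le N d hdN (k + 1 : ℝ) (by linarith)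
  have h2 : (k + 1 : ℝ) - 1 = k := by ring
  rw [h2] at h1
  have hb0 : 0 ≤ q * ((k + 1 : ℝ) / k) := by positivity
  calc (N.choose d : ℝ) * q ^ (N - d) ≤
      ((k + 1 : ℝ) ^ d * ((k + 1 : ℝ) / k) ^ (N - d)) * q ^ (N - d) :=
        mul_le_mul_of_nonneg_right h1 (by positivity)
    _ = (k + 1 : ℝ) ^ d * (q * ((k + 1 : ℝ) / k)) ^ (N - d) := by rw [mul_pow q]; ring
    _ ≤ (k + 1 : ℝ) ^ d * (q * ((k + 1 : ℝ) / k)) ^ (k * d) := by
        apply mul_le_mul_of_nonneg_left _ (by positivity)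
        exact pow_le_pow_of_le_one hb0 hq hkd
    _ = _ := by rw [pow_mul, ← mul_pow]

/-- recession directions are rare -/
theorem rec_le {d N : ℕ} (S : Finset ℝ) (hS : (1:ℝ) ∈ S) (k : ℕ)
    (hN : (k + 1) * d ≤ N) :
    (Measure.pi fun _ : Fin N => gm d) {g | Rec S g} ≤
      ENNReal.ofReal ((5 * (5 / 9 : ℝ) ^ k) ^ d) := by
  have hkd : k * d ≤ N - d := by
    have : (k + 1) * d = k * d + d := by ring
    omega
  have hdN : d ≤ N := by
    have : (k + 1) * d = k * d + d := by ring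
    omega
  have h1 := rec_prob (d := d) (N := N) S hS
  have h2 : ((∑ k ∈ Finset.Iic d, N.choose k : ℕ) : ℝ≥0∞) ≤
      ENNReal.ofReal ((2:ℝ) ^ N * (5 * (5 / 9 : ℝ) ^ k) ^ d) := by
    rw [← ENNReal.ofReal_natCast]
    apply ENNReal.ofReal_le_ofReal
    push_cast
    refine (sum_choose_le N d hdN 10 (by norm_num)).trans ?_
    have e1 : (2:ℝ) ^ N = 2 ^ d * 2 ^ (N - d) := by rw [← pow_add]; congr 1; omega
    rw [e1]
    calc (10:ℝ) ^ d * (10 / (10 - 1)) ^ (N - d) =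
        2 ^ d * 2 ^ (N - d) * (5 ^ d * (5 / 9) ^ (N - d)) := by
          rw [show (10:ℝ) = 2 * 5 by norm_num, mul_pow]
          rw [show (2 * 5 / (2 * 5 - 1) : ℝ) = 2 * (5 / 9) by norm_num, mul_pow]
          ring
      _ ≤ 2 ^ d * 2 ^ (N - d) * (5 ^ d * (5 / 9) ^ (k * d)) := by
          apply mul_le_mul_of_nonneg_left _ (by positivity)
          apply mul_le_mul_of_nonneg_left _ (by positivity)
          exact pow_le_pow_of_le_one (by norm_num) (by norm_num) hkd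
      _ = 2 ^ d * 2 ^ (N - d) * (5 * (5 / 9) ^ k) ^ d := by rw [mul_pow, ← pow_mul]
  have h3 : (2:ℝ≥0∞) ^ N * (Measure.pi fun _ : Fin N => gm d) {g | Rec S g} ≤
      (2:ℝ≥0∞) ^ N * ENNReal.ofReal ((5 * (5 / 9 : ℝ) ^ k) ^ d) := by
    refine (h1.trans h2).trans_eq ?_
    rw [ENNReal.ofReal_mul (by positivity), ENNReal.ofReal_pow (by norm_num)]
    congr 2
    norm_num
  exact (ENNReal.mul_le_mul_iff_right (by positivity) (ENNReal.pow_ne_top (by norm_num))).1 h3

/-- Taylor bound for the exponential -/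
theorem exp_neg_le (u : ℝ) (hu : 0 ≤ u) : Real.exp (-u) ≤ 1 - u + u ^ 2 / 2 := by
  have h1 := Real.sum_le_exp_of_nonneg hu 4
  have h2 : 1 + u + u ^ 2 / 2 + u ^ 3 / 6 ≤ Real.exp u := by
    refine le_trans (le_of_eq ?_) h1
    simp [Finset.sum_range_succ, Nat.factorial]
  have h3 : 0 < 1 - u + u ^ 2 / 2 := by nlinarith [sq_nonneg (u - 1)]
  rw [Real.exp_neg, inv_le_iff_one_le_mul₀ (Real.exp_pos u)]
  have h4 : 1 ≤ (1 - u + u ^ 2 / 2) * (1 + u + u ^ 2 / 2 + u ^ 3 / 6) := by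
    have : (1 - u + u ^ 2 / 2) * (1 + u + u ^ 2 / 2 + u ^ 3 / 6) =
        1 + u ^ 3 / 6 + u ^ 4 / 12 + u ^ 5 / 12 := by ring
    rw [this]
    have h5 : 0 ≤ u ^ 3 := by positivity
    have h6 : 0 ≤ u ^ 4 := by positivity
    have h7 : 0 ≤ u ^ 5 := by positivity
    linarith
  exact h4.trans (mul_le_mul_of_nonneg_left h2 h3.le)

end Pool.Agent.J4H48.RP
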