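import Pool.Agent.J4H48.RP.Body

/-!
# The number of far vertices of a random polyhedron
-/

set_option autoImplicit false

open MeasureTheory ProbabilityTheory Filter Topology
open scoped RealInnerProductSpace ENNReal Matrix

namespace Pool.Agent.J4H48.RP

open Pool.Agent.PZ871 (E gm)
open Pool.Agent.TH84.HC

/-- candidates for vertices: `d` hyperplanes and signs -/
abbrev Cand (d N : ℕ) (S : Finset ℝ) : Type := {s : Finset (Fin N) // s.card = d} × (Fin d → S)

/-- the normals of a candidate -/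
def hh {d N : ℕ} {S : Finset ℝ} (c : Cand d N S) (g : Fin N → E d) : Fin d → E d :=
  fun i => g (c.1.1.orderEmbOfFin c.1.2 i)

/-- the candidate vertex -/
noncomputable def vv {d N : ℕ} {S : Finset ℝ} (b : E d → ℝ) (c : Cand d N S) (g : Fin N → E d) :
    E d := V b (fun i => (c.2 i : ℝ)) (hh c g)

/-- the candidate is far, and satisfies the other inequalities -/
def BadC {d N : ℕ} {S : Finset ℝ} (b : E d → ℝ) (ρ : ℝ) (c : Cand d N S) :
    Set (Fin N → E d) :=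
  {g | ρ < ‖vv b c g‖ ∧ ∀ j, j ∉ c.1.1 → ∀ τ ∈ S, τ * ⟪g j, vv b c g⟫ ≤ b (g j)}

/-- another hyperplane passes through the candidate -/
def NullC {d N : ℕ} {S : Finset ℝ} (b : E d → ℝ) (c : Cand d N S) : Set (Fin N → E d) :=
  {g | ∃ j, j ∉ c.1.1 ∧ ∃ τ ∈ S, τ * ⟪g j, vv b c g⟫ = b (g j)}

theorem card_cand (d N : ℕ) (S : Finset ℝ) :
    Fintype.card (Cand d N S) = N.choose d * S.card ^ d := by
  rw [Fintype.card_prod, Fintype.card_finset_len, Fintype.card_fin, Fintype.card_fun,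
    Fintype.card_coe, Fintype.card_fin]

/-- the normals in `s` -/
def res1 {d N : ℕ} (s : Finset (Fin N)) (g : Fin N → E d) : {i : Fin N // i ∈ s} → E d :=
  fun i => g i

/-- the normals outside `s` -/
def res2 {d N : ℕ} (s : Finset (Fin N)) (g : Fin N → E d) : {i : Fin N // i ∉ s} → E d :=
  fun i => g i

theorem fub {d N : ℕ} (μ : Measure (E d)) [IsProbabilityMeasure μ] (s : Finset (Fin N))
    (W : ({i : Fin N // i ∈ s} → E d) → E d) (hW : Measurable W)
    (A : Set (E d × ({i : Fin N // i ∉ s} → E d))) (hA : MeasurableSet A) (κ : ℝ≥0∞)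
    (hκ : ∀ v, (Measure.pi fun _ : {i : Fin N // i ∉ s} => μ) {y | (v, y) ∈ A} ≤ κ) :
    (Measure.pi fun _ : Fin N => μ) {g | (W (res1 s g), res2 s g) ∈ A} ≤ κ := by
  have hmp := measurePreserving_piEquivPiSubtypeProd (fun _ : Fin N => μ) (fun i => i ∈ s)
  set B : Set (({i : Fin N // i ∈ s} → E d) × ({i : Fin N // i ∉ s} → E d)) :=
    {z | (W z.1, z.2) ∈ A} with hB
  have hBm : MeasurableSet B := by
    apply hA.preimage
    exact (hW.comp measurable_fst).prodMk measurable_snd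
  have h1 : {g : Fin N → E d | (W (res1 s g), res2 s g) ∈ A} =
      (MeasurableEquiv.piEquivPiSubtypeProd (fun _ : Fin N => E d) (fun i => i ∈ s)) ⁻¹' B := rfl
  rw [h1, hmp.measure_preimage_equiv, Measure.prod_apply hBm]
  refine (lintegral_mono fun x => hκ (W x)).trans ?_
  rw [lintegral_const, measure_univ, mul_one]

/-- the candidate vertex as a function of the normals in `s` -/
noncomputable def WW {d N : ℕ} {S : Finset ℝ} (b : E d → ℝ) (c : Cand d N S)
    (h : {i : Fin N // i ∈ c.1.1} → E d) : E d :=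
  V b (fun i => (c.2 i : ℝ)) fun i => h ⟨c.1.1.orderEmbOfFin c.1.2 i, Finset.orderEmbOfFin_mem _ _ _⟩

theorem WW_eq {d N : ℕ} {S : Finset ℝ} (b : E d → ℝ) (c : Cand d N S) (g : Fin N → E d) :
    WW b c (res1 c.1.1 g) = vv b c g := rfl

theorem WW_meas {d N : ℕ} {S : Finset ℝ} {b : E d → ℝ} (hb : Measurable b) (c : Cand d N S) :
    Measurable (WW b c) := by
  unfold WW
  apply (V_meas hb _).comp
  exact measurable_pi_iff.2 fun i => measurable_pi_apply _

theorem badC_le {d N : ℕ} (μ : Measure (E d)) [IsProbabilityMeasure μ] {S : Finset ℝ}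
    {b : E d → ℝ} (hb : Measurable b) {ρ : ℝ} {q : ℝ≥0∞}
    (hq : ∀ v, ρ < ‖v‖ → μ {a | ∀ τ ∈ S, τ * ⟪a, v⟫ ≤ b a} ≤ q) (c : Cand d N S) :
    (Measure.pi fun _ : Fin N => μ) (BadC b ρ c) ≤ q ^ (N - d) := by
  set A : Set (E d × ({i : Fin N // i ∉ c.1.1} → E d)) :=
    {z | ρ < ‖z.1‖ ∧ ∀ j, ∀ τ ∈ S, τ * ⟪z.2 j, z.1⟫ ≤ b (z.2 j)} with hA
  have hAm : MeasurableSet A := by
    have : A = {z | ρ < ‖z.1‖} ∩ ⋂ j, ⋂ τ ∈ S, {z | τ * ⟪z.2 j, z.1⟫ ≤ b (z.2 j)} := by
      ext z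
      simp [hA]
    rw [this]
    refine (measurableSet_lt measurable_const (by fun_prop)).inter
      (MeasurableSet.iInter fun j => Finset.measurableSet_biInter _ fun τ _ =>
        measurableSet_le (by fun_prop) ?_)
    exact hb.comp ((measurable_pi_apply j).comp measurable_snd)
  have h1 : BadC b ρ c ⊆ {g | (WW b c (res1 c.1.1 g), res2 c.1.1 g) ∈ A} := by
    intro g hg
    exact ⟨hg.1, fun j τ hτ => hg.2 j j.2 τ hτ⟩
  refine (measure_mono h1).trans (fub μ c.1.1 (WW b c) (WW_meas hb c) A hAm _ fun v => ?_)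
  by_cases hv : ρ < ‖v‖
  · have h2 : {y : {i : Fin N // i ∉ c.1.1} → E d | (v, y) ∈ A} =
        Set.pi Set.univ (fun _ => {a | ∀ τ ∈ S, τ * ⟪a, v⟫ ≤ b a}) := by
      ext y
      simp [hA, hv]
    rw [h2, Measure.pi_pi, Finset.prod_const, Finset.card_univ]
    have h3 : Fintype.card {i : Fin N // i ∉ c.1.1} = N - d := by
      rw [Fintype.card_subtype_compl, Fintype.card_fin, Fintype.card_coe, c.1.2]
    rw [h3]
    exact pow_le_pow_left' (hq v hv) _
  · have h2 : {y : {i : Fin N // i ∉ c.1.1} → E d | (v, y) ∈ A} = ∅ := by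
      ext y
      simp [hA, hv]
    rw [h2, measure_empty]
    exact bot_le

theorem nullC_zero {d N : ℕ} (μ : Measure (E d)) [IsProbabilityMeasure μ] {S : Finset ℝ}
    {b : E d → ℝ} (hb : Measurable b)
    (h0 : ∀ v, ∀ τ ∈ S, μ {a | τ * ⟪a, v⟫ = b a} = 0) (c : Cand d N S) :
    (Measure.pi fun _ : Fin N => μ) (NullC b c) = 0 := by
  have h1 : NullC b c ⊆ ⋃ j : {i : Fin N // i ∉ c.1.1}, ⋃ τ ∈ S,
      {g | (WW b c (res1 c.1.1 g), res2 c.1.1 g) ∈
        {z : E d × ({i : Fin N // i ∉ c.1.1} → E d) | τ * ⟪z.2 j, z.1⟫ = b (z.2 j)}} := by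
    rintro g ⟨j, hj, τ, hτ, h⟩
    simp only [Set.mem_iUnion]
    exact ⟨⟨j, hj⟩, τ, hτ, h⟩
  have hcS : ∀ j : {i : Fin N // i ∉ c.1.1}, (⋃ τ ∈ S,
      {g | (WW b c (res1 c.1.1 g), res2 c.1.1 g) ∈
        {z : E d × ({i : Fin N // i ∉ c.1.1} → E d) | τ * ⟪z.2 j, z.1⟫ = b (z.2 j)}}) =
      ⋃ τ : S, {g | (WW b c (res1 c.1.1 g), res2 c.1.1 g) ∈
        {z : E d × ({i : Fin N // i ∉ c.1.1} → E d) | (τ : ℝ) * ⟪z.2 j, z.1⟫ = b (z.2 j)}} := by
    intro j
    ext g
    simp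
  refine measure_mono_null h1 (measure_iUnion_null fun j => ?_)
  rw [hcS j]
  refine measure_iUnion_null fun τ' => ?_
  obtain ⟨τ, hτ⟩ := τ'
  rw [← nonpos_iff_eq_zero]
  refine fub μ c.1.1 (WW b c) (WW_meas hb c) _ ?_ 0 fun v => ?_
  · refine measurableSet_eq_fun (by fun_prop) ?_
    exact hb.comp ((measurable_pi_apply j).comp measurable_snd)
  · have h2 : {y : {i : Fin N // i ∉ c.1.1} → E d | (v, y) ∈
        {z : E d × ({i : Fin N // i ∉ c.1.1} → E d) | τ * ⟪z.2 j, z.1⟫ = b (z.2 j)}} =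
        (Function.eval j) ⁻¹' {a | τ * ⟪a, v⟫ = b a} := rfl
    rw [h2, (measurePreserving_eval (fun _ : {i : Fin N // i ∉ c.1.1} => μ) j).measure_preimage
      (measurableSet_eq_fun (by fun_prop) hb).nullMeasurableSet, h0 v τ hτ]

/-- the good event -/
def Nice {d N : ℕ} (S : Finset ℝ) (b : E d → ℝ) (r ρ : ℝ) (M : ℕ) (g : Fin N → E d) : Prop :=
  (∀ i, 0 < b (g i)) ∧ (∀ i, g i ≠ 0) ∧ ¬ Rec S g ∧ (∀ i, r * ‖g i‖ ≤ b (g i)) ∧
    ∃ F : Finset (E d), F.card < M ∧ ∀ x ∈ Set.extremePoints ℝ (Poly S b g), x ∉ F →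
      ‖x‖ ≤ ρ ∧ ∃ s : Finset (Fin N), s.card ≤ d ∧ ∀ i ∉ s, ∀ σ ∈ S, σ * ⟪g i, x⟫ ≠ b (g i)

theorem core {d N : ℕ} (μ : Measure (E d)) [IsProbabilityMeasure μ] {S : Finset ℝ}
    (hS : ∀ σ ∈ S, σ = 1 ∨ σ = -1) {b : E d → ℝ} (hb : Measurable b) {r ρ : ℝ} {q : ℝ≥0∞}
    (hq : ∀ v, ρ < ‖v‖ → μ {a | ∀ τ ∈ S, τ * ⟪a, v⟫ ≤ b a} ≤ q)
    (h0 : ∀ v, ∀ τ ∈ S, μ {a | τ * ⟪a, v⟫ = b a} = 0) (hpos : μ {a | b a ≤ 0} = 0)
    (hzero : μ {0} = 0) (M : ℕ) (hM : 1 ≤ M) :
    (Measure.pi fun _ : Fin N => μ) {g | ¬ Nice S b r ρ M g} ≤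
      (Measure.pi fun _ : Fin N => μ) {g | Rec S g} +
      (Measure.pi fun _ : Fin N => μ) {g | ∃ i, b (g i) < r * ‖g i‖} +
      (N.choose d : ℝ≥0∞) * (S.card : ℝ≥0∞) ^ d * q ^ (N - d) / M := by
  classical
  set P := (Measure.pi fun _ : Fin N => μ) with hP
  set X : (Fin N → E d) → ℝ≥0∞ := fun g => ∑ c : Cand d N S, (BadC b ρ c).indicator 1 g with hX
  have hbm : ∀ c : Cand d N S, MeasurableSet (BadC b ρ c) := by
    intro c
    have : BadC b ρ c = {g | ρ < ‖vv b c g‖} ∩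
        ⋂ j, ⋂ (_ : j ∉ c.1.1), ⋂ τ ∈ S, {g | τ * ⟪g j, vv b c g⟫ ≤ b (g j)} := by
      ext z
      simp [BadC]
    have hvm : Measurable (fun g : Fin N → E d => vv b c g) := by
      unfold vv hh
      apply (V_meas hb _).comp
      exact measurable_pi_iff.2 fun i => measurable_pi_apply _
    rw [this]
    refine (measurableSet_lt measurable_const hvm.norm).inter
      (MeasurableSet.iInter fun j => MeasurableSet.iInter fun _ =>
        Finset.measurableSet_biInter _ fun τ _ => measurableSet_le ?_ ?_)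
    · exact ((measurable_pi_apply j).inner hvm).const_mul τ
    · exact hb.comp (measurable_pi_apply j)
  have hXm : Measurable X :=
    Finset.measurable_sum _ fun c _ => measurable_one.indicator (hbm c)
  have hXint : ∫⁻ g, X g ∂P ≤ (N.choose d : ℝ≥0∞) * (S.card : ℝ≥0∞) ^ d * q ^ (N - d) := by
    rw [hX, lintegral_finsetSum _ fun c _ => measurable_one.indicator (hbm c)]
    calc ∑ c : Cand d N S, ∫⁻ g, (BadC b ρ c).indicator 1 g ∂P
        = ∑ c : Cand d N S, P (BadC b ρ c) :=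
          Finset.sum_congr rfl fun c _ => lintegral_indicator_one (hbm c)
      _ ≤ ∑ c : Cand d N S, q ^ (N - d) := Finset.sum_le_sum fun c _ => badC_le μ hb hq c
      _ = (N.choose d : ℝ≥0∞) * (S.card : ℝ≥0∞) ^ d * q ^ (N - d) := by
          rw [Finset.sum_const, Finset.card_univ, card_cand, nsmul_eq_mul]
          push_cast
          ring
  have hmarkov : P {g | (M : ℝ≥0∞) ≤ X g} ≤
      (N.choose d : ℝ≥0∞) * (S.card : ℝ≥0∞) ^ d * q ^ (N - d) / M := by
    rw [ENNReal.le_div_iff_mul_le (Or.inl (by positivity)) (Or.inl (ENNReal.natCast_ne_top M)),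
      mul_comm]
    exact (mul_meas_ge_le_lintegral hXm _).trans hXint
  have hsub : {g | ¬ Nice S b r ρ M g} ⊆ ((({g | Rec S g} ∪ {g | ∃ i, b (g i) < r * ‖g i‖}) ∪
      {g | (M : ℝ≥0∞) ≤ X g}) ∪ ((⋃ c : Cand d N S, NullC b c) ∪
      ((⋃ i : Fin N, (Function.eval i) ⁻¹' {a | b a ≤ 0}) ∪
        ⋃ i : Fin N, (Function.eval i) ⁻¹' {(0 : E d)}))) := by
    intro g hg
    by_contra hcon
    simp only [Set.mem_union, Set.mem_iUnion, not_or, Set.mem_preimage, Function.eval,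
      Set.mem_singleton_iff, not_exists, Set.mem_ofPred_eq, not_le, not_lt] at hcon
    obtain ⟨⟨⟨c1, c2⟩, c3⟩, c4, c5, c6⟩ := hcon
    apply hg
    refine ⟨c5, c6, c1, c2, ?_⟩
    refine ⟨(Finset.univ.filter fun c : Cand d N S => g ∈ BadC b ρ c).image fun c => vv b c g,
      ?_, ?_⟩
    · refine lt_of_le_of_lt Finset.card_image_le ?_
      have h1 : X g = ((Finset.univ.filter fun c : Cand d N S => g ∈ BadC b ρ c).card : ℝ≥0∞) := by
        simp only [hX, Set.indicator_apply, Pi.one_apply]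
        rw [Finset.sum_boole]
      rw [h1] at c3
      exact_mod_cast c3
    · intro x hx hxF
      obtain ⟨s, hs, σ, hli, hv⟩ := ext_cand S hS b g hx
      set c : Cand d N S := (⟨s, hs⟩, σ) with hc
      have hxv : x = vv b c g := V_unique b (fun i => (σ i : ℝ)) _ (det_of_li _ hli) x hv
      have hnb : g ∉ BadC b ρ c := by
        intro hb'
        apply hxF
        rw [Finset.mem_image]
        exact ⟨c, Finset.mem_filter.2 ⟨Finset.mem_univ _, hb'⟩, hxv.symm⟩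
      refine ⟨?_, s, hs.le, ?_⟩
      · by_contra hlt
        push Not at hlt
        apply hnb
        refine ⟨by rw [← hxv]; exact hlt, fun j _ τ hτ => ?_⟩
        rw [← hxv]
        exact (extremePoints_subset hx) j τ hτ
      · intro i hi τ hτ heq
        apply c4 c
        refine ⟨i, hi, τ, hτ, ?_⟩
        rw [← hxv]
        exact heq
  have hn1 : P (⋃ c : Cand d N S, NullC b c) = 0 :=
    measure_iUnion_null fun c => nullC_zero μ hb h0 c
  have hn2 : P (⋃ i : Fin N, (Function.eval i) ⁻¹' {a | b a ≤ 0}) = 0 := by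
    refine measure_iUnion_null fun i => ?_
    rw [(measurePreserving_eval (fun _ : Fin N => μ) i).measure_preimage
      (measurableSet_le hb measurable_const).nullMeasurableSet, hpos]
  have hn3 : P (⋃ i : Fin N, (Function.eval i) ⁻¹' {(0 : E d)}) = 0 := by
    refine measure_iUnion_null fun i => ?_
    rw [(measurePreserving_eval (fun _ : Fin N => μ) i).measure_preimage
      (measurableSet_singleton 0).nullMeasurableSet, hzero]
  have hn4 : P ((⋃ c : Cand d N S, NullC b c) ∪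
      ((⋃ i : Fin N, (Function.eval i) ⁻¹' {a | b a ≤ 0}) ∪
        ⋃ i : Fin N, (Function.eval i) ⁻¹' {(0 : E d)})) = 0 :=
    measure_union_null hn1 (measure_union_null hn2 hn3)
  calc P {g | ¬ Nice S b r ρ M g} ≤ _ := measure_mono hsub
    _ ≤ P (({g | Rec S g} ∪ {g | ∃ i, b (g i) < r * ‖g i‖}) ∪ {g | (M : ℝ≥0∞) ≤ X g}) +
        P ((⋃ c : Cand d N S, NullC b c) ∪
      ((⋃ i : Fin N, (Function.eval i) ⁻¹' {a | b a ≤ 0}) ∪
        ⋃ i : Fin N, (Function.eval i) ⁻¹' {(0 : E d)})) := measure_union_le _ _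
    _ = P (({g | Rec S g} ∪ {g | ∃ i, b (g i) < r * ‖g i‖}) ∪ {g | (M : ℝ≥0∞) ≤ X g}) := by
        rw [hn4, add_zero]
    _ ≤ P ({g | Rec S g} ∪ {g | ∃ i, b (g i) < r * ‖g i‖}) + P {g | (M : ℝ≥0∞) ≤ X g} :=
        measure_union_le _ _
    _ ≤ (P {g | Rec S g} + P {g | ∃ i, b (g i) < r * ‖g i‖}) + _ :=
        add_le_add (measure_union_le _ _) hmarkov

end Pool.Agent.J4H48.RP
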