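import Pool.Agent.J4H48.RP.Num

/-!
# The one-dimensional Gaussian measure
-/

set_option autoImplicit false

open MeasureTheory ProbabilityTheory Filter Topology
open scoped RealInnerProductSpace ENNReal Matrix

namespace Pool.Agent.J4H48.RP

open Pool.Agent.PZ871 (E gm)
open Pool.Agent.TH84.HC

instance : NullSingletonClass g1 := nullSingletonClass_gaussianReal one_ne_zero

/-- Gaussian mass of the set of all `z` with `τ z ≤ x` for all `τ ∈ S` -/
noncomputable def gq (S : Finset ℝ) (x : ℝ) : ℝ≥0∞ := g1 {z | ∀ τ ∈ S, τ * z ≤ x}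

theorem gq_meas (S : Finset ℝ) (x : ℝ) : MeasurableSet {z : ℝ | ∀ τ ∈ S, τ * z ≤ x} := by
  have : {z : ℝ | ∀ τ ∈ S, τ * z ≤ x} = ⋂ τ ∈ S, {z | τ * z ≤ x} := by
    ext z
    simp
  rw [this]
  exact Finset.measurableSet_biInter _ fun τ _ => measurableSet_le (by fun_prop) measurable_const

theorem gq_mono (S : Finset ℝ) {x y : ℝ} (h : x ≤ y) : gq S x ≤ gq S y :=
  measure_mono fun _ hz τ hτ => (hz τ hτ).trans h

theorem gq_le_one (S : Finset ℝ) (x : ℝ) : gq S x ≤ 1 := prob_le_one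

theorem real_eq (s : Set ℝ) : g1.real s = ∫ y in s, ph y := by
  unfold g1 Measure.real
  rw [gaussianReal_apply_eq_integral 0 one_ne_zero s, ENNReal.toReal_ofReal]
  · rfl
  · exact integral_nonneg fun y => (gaussianPDFReal_nonneg 0 1 y)

theorem ph_int : Integrable ph := integrable_gaussianPDFReal 0 1

theorem ph_le (y : ℝ) : ph y ≤ (Real.sqrt (2 * Real.pi))⁻¹ * (1 - y ^ 2 / 2 + y ^ 4 / 8) := by
  rw [ph_eq]
  apply mul_le_mul_of_nonneg_left _ (by positivity)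
  have := exp_neg_le (y ^ 2 / 2) (by positivity)
  have e : -(y ^ 2) / 2 = -(y ^ 2 / 2) := by ring
  rw [e]
  refine this.trans (le_of_eq ?_)
  ring

theorem c_le : (Real.sqrt (2 * Real.pi))⁻¹ ≤ 0.399 := by
  rw [inv_le_comm₀ (by positivity) (by norm_num)]
  apply Real.le_sqrt_of_sq_le
  have := Real.pi_gt_d4
  norm_num at this ⊢
  linarith

theorem c_ge : 0.398 ≤ (Real.sqrt (2 * Real.pi))⁻¹ := by
  rw [le_inv_comm₀ (by norm_num) (by positivity)]
  rw [Real.sqrt_le_left (by norm_num)]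
  have := Real.pi_lt_d4
  norm_num at this ⊢
  linarith

theorem Ph_le {x : ℝ} (hx : 0 ≤ x) (hx2 : 0 ≤ x - x ^ 3 / 6 + x ^ 5 / 40) :
    Ph x ≤ 1 / 2 + 0.399 * (x - x ^ 3 / 6 + x ^ 5 / 40) := by
  have h1 : Ph x = Ph 0 + g1.real (Set.Ico 0 x) := by
    unfold Ph
    rw [← measureReal_union ((Set.Iio_disjoint_Ici le_rfl).mono_right Set.Ico_subset_Ici_self) measurableSet_Ico,
      Set.Iio_union_Ico_eq_Iio hx]
  have h2 : g1.real (Set.Ico 0 x) ≤ (Real.sqrt (2 * Real.pi))⁻¹ * (x - x ^ 3 / 6 + x ^ 5 / 40) := by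
    rw [real_eq, integral_Ico_eq_integral_Ioc, ← intervalIntegral.integral_of_le hx]
    have h3 : ∫ y in (0:ℝ)..x, ph y ≤
        ∫ y in (0:ℝ)..x, (Real.sqrt (2 * Real.pi))⁻¹ * (1 - y ^ 2 / 2 + y ^ 4 / 8) := by
      apply intervalIntegral.integral_mono_on hx ph_int.intervalIntegrable
      · apply Continuous.intervalIntegrable
        fun_prop
      · intro y _
        exact ph_le y
    refine h3.trans (le_of_eq ?_)
    rw [intervalIntegral.integral_const_mul]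
    congr 1
    rw [intervalIntegral.integral_add, intervalIntegral.integral_sub,
      intervalIntegral.integral_div, intervalIntegral.integral_div, integral_pow, integral_pow]
    · simp
      ring
    all_goals apply Continuous.intervalIntegrable; fun_prop
  rw [h1, Ph_zero]
  have h4 := mul_le_mul_of_nonneg_right c_le hx2
  linarith

theorem gq_one (x : ℝ) : gq {1} x = ENNReal.ofReal (Ph x) := by
  have h1 : {z : ℝ | ∀ τ ∈ ({1} : Finset ℝ), τ * z ≤ x} = Set.Iic x := by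
    ext z
    simp
  unfold gq Ph
  rw [h1, Measure.real, ENNReal.ofReal_toReal (measure_ne_top _ _)]
  exact measure_congr Iio_ae_eq_Iic.symm

theorem gq_sym {x : ℝ} (hx : 0 ≤ x) : gq {1, -1} x = ENNReal.ofReal (2 * Ph x - 1) := by
  have h1 : {z : ℝ | ∀ τ ∈ ({1, -1} : Finset ℝ), τ * z ≤ x} = Set.Icc (-x) x := by
    ext z
    simp only [Finset.mem_insert, Finset.mem_singleton, forall_eq_or_imp, forall_eq, one_mul,
      neg_mul, Set.mem_ofPred_eq, Set.mem_Icc]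
    constructor
    · rintro ⟨h1, h2⟩
      exact ⟨by linarith, h1⟩
    · rintro ⟨h1, h2⟩
      exact ⟨h2, by linarith⟩
  unfold gq
  rw [h1]
  have h2 : g1 (Set.Icc (-x) x) = ENNReal.ofReal (g1.real (Set.Icc (-x) x)) := by
    rw [Measure.real, ENNReal.ofReal_toReal (measure_ne_top _ _)]
  rw [h2]
  congr 1
  have h3 : g1.real (Set.Icc (-x) x) = g1.real (Set.Ico (-x) x) := by
    unfold Measure.real
    rw [measure_congr Ico_ae_eq_Icc]
  have h4 : Ph x = g1.real (Set.Iio (-x)) + g1.real (Set.Ico (-x) x) := by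
    unfold Ph
    rw [← measureReal_union ((Set.Iio_disjoint_Ici le_rfl).mono_right Set.Ico_subset_Ici_self) measurableSet_Ico,
      Set.Iio_union_Ico_eq_Iio (by linarith)]
  have h5 : g1.real (Set.Iio (-x)) = 1 - Ph x := by
    have h6 : g1.real (Set.Iio (-x)) = g1.real (Set.Ioi x) := by
      unfold Measure.real
      rw [← mp_neg1.measure_preimage measurableSet_Iio.nullMeasurableSet]
      congr 2
      ext z
      simp
    have h7 : g1.real (Set.Ioi x) = g1.real (Set.Ici x) := by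
      unfold Measure.real
      rw [measure_congr Ioi_ae_eq_Ici]
    rw [h6, h7]
    have h8 : (Set.Ici x) = (Set.Iio x)ᶜ := by
      ext z
      simp
    rw [h8, measureReal_compl measurableSet_Iio]
    unfold Ph
    simp
  rw [h3]
  linarith

theorem ph_ge (x y : ℝ) (hx : 0 ≤ x) (hy : y ∈ Set.Ioc x (x + 1)) :
    1 / 3 * Real.exp (-(x ^ 2 + 1)) ≤ ph y := by
  rw [ph_eq]
  apply mul_le_mul _ _ (Real.exp_pos _).le (by positivity)
  · have := c_ge
    linarith
  · apply Real.exp_le_exp.2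
    have h1 : y ^ 2 ≤ (x + 1) ^ 2 := pow_le_pow_left₀ (by linarith [hy.1]) hy.2 2
    nlinarith [sq_nonneg (x - 1)]

/-- the mass is bounded away from one -/
theorem gq_lt (S : Finset ℝ) (hS : (1:ℝ) ∈ S) {x : ℝ} (hx : 0 ≤ x) :
    gq S x ≤ ENNReal.ofReal (1 - 1 / 3 * Real.exp (-(x ^ 2 + 1))) := by
  have h1 : gq S x ≤ g1 (Set.Ioc x (x+1))ᶜ := by
    apply measure_mono
    intro z hz hz'
    have := hz 1 hS
    rw [one_mul] at this
    exact absurd hz'.1 (not_lt.2 this)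
  refine h1.trans ?_
  have h2 : g1 (Set.Ioc x (x+1))ᶜ = ENNReal.ofReal (g1.real (Set.Ioc x (x+1))ᶜ) := by
    rw [Measure.real, ENNReal.ofReal_toReal (measure_ne_top _ _)]
  rw [h2]
  apply ENNReal.ofReal_le_ofReal
  rw [measureReal_compl measurableSet_Ioc]
  have h3 : 1 / 3 * Real.exp (-(x ^ 2 + 1)) ≤ g1.real (Set.Ioc x (x+1)) := by
    rw [real_eq]
    have h4 := setIntegral_mono_on (μ := volume) (s := Set.Ioc x (x+1))
      (f := fun _ => 1 / 3 * Real.exp (-(x ^ 2 + 1))) (g := ph)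
      (integrableOn_const (by simp)) ph_int.integrableOn measurableSet_Ioc
      (fun y hy => ph_ge x y hx hy)
    simpa using h4
  simp only [probReal_univ]
  linarith

theorem gq_sym_num : gq {1, -1} 1.02 ≤ ENNReal.ofReal 0.6949 := by
  rw [gq_sym (by norm_num)]
  apply ENNReal.ofReal_le_ofReal
  have := Ph_le (x := 1.02) (by norm_num) (by norm_num)
  norm_num at this ⊢
  linarith

theorem gq_one_num : gq {1} 1.02 ≤ ENNReal.ofReal 0.8475 := by
  rw [gq_one]
  apply ENNReal.ofReal_le_ofReal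
  have := Ph_le (x := 1.02) (by norm_num) (by norm_num)
  norm_num at this ⊢
  linarith

/-- probability of a constraint, `b = 1` -/
theorem con_one {d : ℕ} (S : Finset ℝ) {x : ℝ} (hx : 0 < x) {v : E d} (hv : 1 / x < ‖v‖) :
    gm d {a | ∀ τ ∈ S, τ * ⟪a, v⟫ ≤ 1} ≤ gq S x := by
  have hv0 : 0 < ‖v‖ := lt_trans (by positivity) hv
  set θ : E d := ‖v‖⁻¹ • v with hθ
  have hθ1 : ‖θ‖ = 1 := by rw [hθ, norm_smul, norm_inv, norm_norm, inv_mul_cancel₀ hv0.ne']
  unfold gq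
  rw [← map_inner θ hθ1, Measure.map_apply (by fun_prop) (gq_meas S x)]
  apply measure_mono
  intro a ha τ hτ
  have h1 := ha τ hτ
  have h2 : ⟪a, θ⟫ = ‖v‖⁻¹ * ⟪a, v⟫ := by rw [hθ, inner_smul_right]
  have h3 : ‖v‖⁻¹ < x := by
    rw [one_div] at hv
    exact inv_lt_of_inv_lt₀ hx hv
  show τ * ⟪a, θ⟫ ≤ x
  rw [h2]
  calc τ * (‖v‖⁻¹ * ⟪a, v⟫) = ‖v‖⁻¹ * (τ * ⟪a, v⟫) := by ring
    _ ≤ ‖v‖⁻¹ * 1 := mul_le_mul_of_nonneg_left h1 (by positivity)
    _ ≤ x := by rw [mul_one]; exact h3.le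

/-- probability of a constraint, `b = ‖·‖` -/
theorem con_norm {d : ℕ} (S : Finset ℝ) {x y : ℝ} (hx : 0 < x) (hy : 0 < y) {v : E d}
    (hv : y / x < ‖v‖) :
    gm d {a | ∀ τ ∈ S, τ * ⟪a, v⟫ ≤ ‖a‖} ≤ gq S x + gm d {a | y ≤ ‖a‖} := by
  have hv0 : 0 < ‖v‖ := lt_trans (by positivity) hv
  set θ : E d := ‖v‖⁻¹ • v with hθ
  have hθ1 : ‖θ‖ = 1 := by rw [hθ, norm_smul, norm_inv, norm_norm, inv_mul_cancel₀ hv0.ne']
  have h0 : gq S x = gm d {a | ∀ τ ∈ S, τ * ⟪a, θ⟫ ≤ x} := by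
    unfold gq
    rw [← map_inner θ hθ1, Measure.map_apply (by fun_prop) (gq_meas S x)]
    rfl
  rw [h0]
  refine le_trans (measure_mono ?_) (measure_union_le _ _)
  intro a ha
  by_cases hay : y ≤ ‖a‖
  · exact Or.inr hay
  · left
    intro τ hτ
    push Not at hay
    have h1 := ha τ hτ
    have h2 : ⟪a, θ⟫ = ‖v‖⁻¹ * ⟪a, v⟫ := by rw [hθ, inner_smul_right]
    rw [h2]
    have h3 : y * ‖v‖⁻¹ < x := by
      rw [← div_eq_mul_inv, div_lt_iff₀ hv0]
      rwa [div_lt_iff₀ hx, mul_comm] at hv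
    calc τ * (‖v‖⁻¹ * ⟪a, v⟫) = ‖v‖⁻¹ * (τ * ⟪a, v⟫) := by ring
      _ ≤ ‖v‖⁻¹ * y := mul_le_mul_of_nonneg_left (h1.trans hay.le) (by positivity)
      _ ≤ x := by rw [mul_comm]; exact h3.le

end Pool.Agent.J4H48.RP
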