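import Pool.Agent.TH84.HC.Asym2

/-!
# Vertices of polyhedra given by two-sided or one-sided inequalities
-/

set_option autoImplicit false

open MeasureTheory ProbabilityTheory Filter Topology
open scoped RealInnerProductSpace ENNReal Matrix

namespace Pool.Agent.J4H48.RP

open Pool.Agent.PZ871 (E gm)
open Pool.Agent.TH84.HC

/-- the polyhedron of all `x` with `σ ⟪g i, x⟫ ≤ b (g i)` for all `i` and all `σ ∈ S` -/
def Poly {d N : ℕ} (S : Finset ℝ) (b : E d → ℝ) (g : Fin N → E d) : Set (E d) :=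
  {x | ∀ i, ∀ σ ∈ S, σ * ⟪g i, x⟫ ≤ b (g i)}

/-- the matrix with rows `h i` -/
def Mat {d : ℕ} (h : Fin d → E d) : Matrix (Fin d) (Fin d) ℝ := Matrix.of fun i j => h i j

/-- the common point of the hyperplanes `σ i ⟪h i, x⟫ = b (h i)` -/
noncomputable def V {d : ℕ} (b : E d → ℝ) (σ : Fin d → ℝ) (h : Fin d → E d) : E d :=
  WithLp.toLp 2 ((Mat h)⁻¹ *ᵥ fun i => σ i * b (h i))

theorem mat_mulVec {d : ℕ} (h : Fin d → E d) (x : E d) (i : Fin d) :
    (Mat h *ᵥ x.ofLp) i = ⟪h i, x⟫ := by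
  simp only [Matrix.mulVec, Mat, dotProduct, Matrix.of_apply, PiLp.inner_apply]
  exact Finset.sum_congr rfl fun j _ => by simp [mul_comm]

theorem V_spec {d : ℕ} (b : E d → ℝ) (σ : Fin d → ℝ) (h : Fin d → E d) (hdet : (Mat h).det ≠ 0)
    (i : Fin d) : ⟪h i, V b σ h⟫ = σ i * b (h i) := by
  rw [← mat_mulVec]
  unfold V
  have : IsUnit (Mat h).det := isUnit_iff_ne_zero.2 hdet
  simp only [Matrix.mulVec_mulVec, Matrix.mul_nonsing_inv _ this, Matrix.one_mulVec]

theorem V_unique {d : ℕ} (b : E d → ℝ) (σ : Fin d → ℝ) (h : Fin d → E d) (hdet : (Mat h).det ≠ 0)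
    (x : E d) (hx : ∀ i, ⟪h i, x⟫ = σ i * b (h i)) : x = V b σ h := by
  have hu : IsUnit (Mat h).det := isUnit_iff_ne_zero.2 hdet
  have h1 : Mat h *ᵥ x.ofLp = fun i => σ i * b (h i) := by
    funext i
    rw [mat_mulVec, hx]
  unfold V
  rw [← h1, Matrix.mulVec_mulVec, Matrix.nonsing_inv_mul _ hu, Matrix.one_mulVec]

theorem V_meas {d : ℕ} {b : E d → ℝ} (hb : Measurable b) (σ : Fin d → ℝ) :
    Measurable (V b σ) := by
  unfold V
  have h0 : Continuous (fun h : Fin d → E d => Mat h) := by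
    unfold Mat
    fun_prop
  have h1 : Measurable (fun h : Fin d → E d => (Mat h).det) := by
    exact (h0.matrix_det).measurable
  have h3 : ∀ i : Fin d, Measurable (fun h : Fin d → E d => ((Mat h)⁻¹ *ᵥ fun i => σ i * b (h i)) i) := by
    intro i
    simp only [Matrix.mulVec, dotProduct, Matrix.inv_def, Ring.inverse_eq_inv', Matrix.smul_apply,
      smul_eq_mul]
    refine Finset.measurable_sum _ fun j _ => ?_
    have h4 : Measurable (fun h : Fin d → E d => (Mat h).adjugate i j) := by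
      have h5 : Continuous (fun h : Fin d → E d => (Mat h).adjugate i j) :=
        (h0.matrix_adjugate).matrix_elem i j
      exact h5.measurable
    exact (h1.inv.mul h4).mul (measurable_const.mul (hb.comp (measurable_pi_apply j)))
  have h6 : Measurable (fun h : Fin d → E d => ((Mat h)⁻¹ *ᵥ fun i => σ i * b (h i))) :=
    measurable_pi_iff.2 h3
  exact (WithLp.measurable_toLp 2 (Fin d → ℝ)).comp h6

/-- the rows are linearly independent iff the determinant is not zero -/
theorem det_of_li {d : ℕ} (h : Fin d → E d) (hli : LinearIndependent ℝ h) : (Mat h).det ≠ 0 := by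
  intro h0
  obtain ⟨v, hv, hv0⟩ := Matrix.exists_vecMul_eq_zero_iff.2 h0
  apply hv
  have h1 : ∑ i, v i • h i = 0 := by
    ext j
    have := congrFun hv0 j
    simp only [Matrix.vecMul, dotProduct, Mat, Matrix.of_apply, Pi.zero_apply] at this
    simp only [WithLp.ofLp_sum, WithLp.ofLp_smul, Finset.sum_apply, Pi.smul_apply, smul_eq_mul,
      WithLp.ofLp_zero, Pi.zero_apply]
    exact this
  funext i
  exact (Fintype.linearIndependent_iff.1 hli) v h1 i


/-- the active normals at an extreme point span the space -/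
theorem ext_span {d N : ℕ} (S : Finset ℝ) (b : E d → ℝ) (g : Fin N → E d) {x : E d}
    (hx : x ∈ Set.extremePoints ℝ (Poly S b g)) :
    Submodule.span ℝ (g '' {i | ∃ σ ∈ S, σ * ⟪g i, x⟫ = b (g i)}) = ⊤ := by
  by_contra hne
  rw [← Submodule.orthogonal_eq_bot_iff] at hne
  obtain ⟨w, hw, hw0⟩ := Submodule.exists_mem_ne_zero_of_ne_bot hne
  rw [mem_extremePoints] at hx
  obtain ⟨hxK, hext⟩ := hx
  have hact : ∀ i, (∃ σ ∈ S, σ * ⟪g i, x⟫ = b (g i)) → ⟪g i, w⟫ = 0 := by
    intro i hi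
    exact (Submodule.mem_orthogonal _ _).1 hw _ (Submodule.subset_span ⟨i, hi, rfl⟩)
  have h1 : ∀ᶠ t in 𝓝 (0:ℝ), ∀ i, ∀ σ ∈ S, σ * ⟪g i, x + t • w⟫ ≤ b (g i) := by
    rw [Filter.eventually_all]
    intro i
    rw [Filter.eventually_all_finset]
    intro σ hσ
    by_cases hc : σ * ⟪g i, x⟫ = b (g i)
    · refine Filter.Eventually.of_forall fun t => ?_
      rw [inner_add_right, inner_smul_right, hact i ⟨σ, hσ, hc⟩, mul_zero, add_zero, hc]
    · have hlt : σ * ⟪g i, x⟫ < b (g i) := lt_of_le_of_ne (hxK i σ hσ) hc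
      have hcont : Continuous (fun t : ℝ => σ * ⟪g i, x + t • w⟫) := by fun_prop
      have h3 : ∀ᶠ t in 𝓝 (0:ℝ), σ * ⟪g i, x + t • w⟫ < b (g i) :=
        hcont.continuousAt.eventually (gt_mem_nhds (by simpa using hlt))
      exact h3.mono fun t ht => ht.le
  have h2 : ∀ᶠ t in 𝓝 (0:ℝ), ∀ i, ∀ σ ∈ S, σ * ⟪g i, x + (-t) • w⟫ ≤ b (g i) := by
    have h3 : Filter.Tendsto (fun t : ℝ => -t) (𝓝 0) (𝓝 0) := by
      have := (continuous_neg (G := ℝ)).tendsto 0
      simpa using this
    exact h3.eventually h1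
  obtain ⟨t, ⟨ht1, ht2⟩, ht⟩ := (((h1.and h2).filter_mono nhdsWithin_le_nhds).and
    (self_mem_nhdsWithin (a := (0:ℝ)) (s := Set.Ioi 0))).exists
  have ht0 : (0:ℝ) < t := ht
  have h4 := hext (x + t • w) ht1 (x + (-t) • w) ht2 ⟨1/2, 1/2, by norm_num, by norm_num, by norm_num, by
    simp only [smul_add, smul_smul]
    have : (1/2 * -t : ℝ) = -(1/2 * t) := by ring
    rw [this, neg_smul]
    have h5 : (1/2 : ℝ) • x + (1/2 : ℝ) • x = x := by rw [← add_smul]; norm_num
    calc (1 / 2 : ℝ) • x + (1 / 2 * t) • w + ((1 / 2 : ℝ) • x + -((1 / 2 * t) • w))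
        = (1/2 : ℝ) • x + (1/2 : ℝ) • x := by abel
      _ = x := h5⟩
  have h6 : t • w = 0 := by
    have := h4.1
    rwa [add_eq_left] at this
  rcases smul_eq_zero.1 h6 with h7 | h7
  · exact ht0.ne' h7
  · exact hw0 h7

/-- an extreme point is determined by `d` of the hyperplanes -/
theorem ext_cand {d N : ℕ} (S : Finset ℝ) (hS : ∀ σ ∈ S, σ = 1 ∨ σ = -1) (b : E d → ℝ)
    (g : Fin N → E d) {x : E d} (hx : x ∈ Set.extremePoints ℝ (Poly S b g)) :
    ∃ (s : Finset (Fin N)) (hs : s.card = d) (σ : Fin d → S),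
      LinearIndependent ℝ (fun i => g (s.orderEmbOfFin hs i)) ∧
      ∀ i, ⟪g (s.orderEmbOfFin hs i), x⟫ = σ i * b (g (s.orderEmbOfFin hs i)) := by
  classical
  have hsp := ext_span S b g hx
  set act : Set (Fin N) := {i | ∃ σ ∈ S, σ * ⟪g i, x⟫ = b (g i)} with hact
  obtain ⟨f, hf1, hf2, hf3⟩ := Submodule.exists_fun_fin_finrank_span_eq ℝ (g '' act)
  have hfr : Module.finrank ℝ (Submodule.span ℝ (g '' act)) = d := by
    rw [hsp, finrank_top, finrank_euclideanSpace_fin]
  have hchoose : ∀ i, ∃ j, j ∈ act ∧ g j = f i := fun i => by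
    obtain ⟨j, hj, hj'⟩ := hf1 i
    exact ⟨j, hj, hj'⟩
  choose e he1 he2 using hchoose
  have hge : (fun i => g (e i)) = f := funext he2
  have hinj : Function.Injective e := by
    intro i j hij
    apply hf3.injective
    rw [← he2, ← he2, hij]
  set s : Finset (Fin N) := Finset.univ.image e with hs
  have hcard : s.card = d := by
    rw [hs, Finset.card_image_of_injective _ hinj, Finset.card_univ, Fintype.card_fin, hfr]
  have hmem : ∀ i : Fin d, ∃ k, e k = s.orderEmbOfFin hcard i := by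
    intro i
    have h0 : ∀ j ∈ s, ∃ k, e k = j := by
      intro j hj
      rw [hs, Finset.mem_image] at hj
      obtain ⟨k, -, hk⟩ := hj
      exact ⟨k, hk⟩
    exact h0 _ (Finset.orderEmbOfFin_mem s hcard i)
  choose τ hτ using hmem
  have hτinj : Function.Injective τ := by
    intro i j hij
    apply (s.orderEmbOfFin hcard).injective
    rw [← hτ, ← hτ, hij]
  have hsig : ∀ i : Fin d, ∃ σ : S, (σ : ℝ) * ⟪g (s.orderEmbOfFin hcard i), x⟫ =
      b (g (s.orderEmbOfFin hcard i)) := by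
    intro i
    rw [← hτ]
    obtain ⟨σ, hσ, h⟩ := he1 (τ i)
    exact ⟨⟨σ, hσ⟩, h⟩
  choose σ hσ using hsig
  refine ⟨s, hcard, σ, ?_, ?_⟩
  · have h1 : LinearIndependent ℝ (fun i => g (e i)) := by rw [hge]; exact hf3
    have h2 := h1.comp τ hτinj
    have h3 : (fun i => g (s.orderEmbOfFin hcard i)) = (fun i => g (e i)) ∘ τ := by
      funext i
      simp [hτ]
    rw [h3]
    exact h2
  · intro i
    rcases hS _ (σ i).2 with h | h
    · have := hσ i
      rw [h] at this ⊢
      simpa using this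
    · have := hσ i
      rw [h] at this ⊢
      linarith

end Pool.Agent.J4H48.RP
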