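import Pool.Agent.J4H48.RP.Gau

/-!
# Independent Gaussian vectors are rarely contained in a half-space
-/

set_option autoImplicit false

open MeasureTheory ProbabilityTheory Filter Topology
open scoped RealInnerProductSpace ENNReal Matrix

namespace Pool.Agent.J4H48.RP

open Pool.Agent.PZ871 (E gm)
open Pool.Agent.TH84.HC

/-- linear independence almost surely -/
theorem li_ae (d k : ℕ) (hk : k ≤ d) :
    (Measure.pi fun _ : Fin k => gm d) {h | ¬ LinearIndependent ℝ h} = 0 := by
  induction k with
  | zero =>
    have : {h : Fin 0 → E d | ¬ LinearIndependent ℝ h} = ∅ := by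
      ext h
      simp
    rw [this, measure_empty]
  | succ k ih =>
    have hmp := measurePreserving_piFinSuccAbove (fun _ : Fin (k+1) => gm d) 0
    set B : Set (E d × (Fin k → E d)) :=
      {z | ¬ LinearIndependent ℝ (Fin.cons z.1 z.2 : Fin (k+1) → E d)} with hB
    have hBm : MeasurableSet B := by
      have hc : Continuous (fun z : E d × (Fin k → E d) => (Fin.cons z.1 z.2 : Fin (k+1) → E d)) := by
        fun_prop
      have : IsClosed B := by
        rw [← isOpen_compl_iff]
        have h1 : Bᶜ = (fun z : E d × (Fin k → E d) => (Fin.cons z.1 z.2 : Fin (k+1) → E d)) ⁻¹'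
            {f | LinearIndependent ℝ f} := by
          ext z
          simp [hB]
        rw [h1]
        exact isOpen_setOfPred_linearIndependent.preimage hc
      exact this.measurableSet
    have h1 : {h : Fin (k+1) → E d | ¬ LinearIndependent ℝ h} =
        (MeasurableEquiv.piFinSuccAbove (fun _ : Fin (k+1) => E d) 0) ⁻¹' B := by
      ext h
      have : (Fin.cons (h 0) (fun j => h (Fin.succAbove 0 j)) : Fin (k+1) → E d) = h := by
        funext j
        refine Fin.cases ?_ (fun j => ?_) j <;> simp
      show ¬ LinearIndependent ℝ h ↔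
        ¬ LinearIndependent ℝ (Fin.cons (h 0) (fun j => h (Fin.succAbove 0 j)) : Fin (k+1) → E d)
      rw [this]
    rw [h1, hmp.measure_preimage_equiv, Measure.prod_apply_symm hBm]
    have h2 : ∀ᵐ y ∂(Measure.pi fun _ : Fin k => gm d), LinearIndependent ℝ y :=
      ae_iff.2 (ih (by omega))
    have h3 : ∀ᵐ y ∂(Measure.pi fun _ : Fin k => gm d), gm d ((fun x => (x, y)) ⁻¹' B) = 0 := by
      filter_upwards [h2] with y hy
      refine measure_mono_null ?_ (gm_submodule (Submodule.span ℝ (Set.range y)) ?_)
      · intro a ha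
        have ha' : ¬ LinearIndependent ℝ (Fin.cons a y : Fin (k+1) → E d) := ha
        rw [linearIndependent_finCons] at ha'
        by_contra hc
        exact ha' ⟨hy, hc⟩
      · intro htop
        have h4 : Module.finrank ℝ (Submodule.span ℝ (Set.range y)) ≤ k := by
          have := finrank_range_le_card (R := ℝ) y
          simpa [Set.finrank] using this
        rw [htop, finrank_top, finrank_euclideanSpace_fin] at h4
        omega
    rw [lintegral_congr_ae h3]
    simp

theorem map_comp {d N k : ℕ} (e : Fin k → Fin N) (he : Function.Injective e) :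
    MeasurePreserving (fun (g : Fin N → E d) (i : Fin k) => g (e i))
      (Measure.pi fun _ : Fin N => gm d) (Measure.pi fun _ : Fin k => gm d) := by
  refine ⟨measurable_pi_iff.2 fun i => measurable_pi_apply _, ?_⟩
  have h1 : iIndepFun (fun (i : Fin N) (g : Fin N → E d) => g i)
      (Measure.pi fun _ : Fin N => gm d) :=
    iIndepFun_pi (μ := fun _ : Fin N => gm d) (X := fun _ x => x) fun i => aemeasurable_id
  have h2 := h1.precomp he
  have h3 := (iIndepFun_iff_map_fun_eq_pi_map fun i =>
    (measurable_pi_apply (e i)).aemeasurable).1 h2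
  rw [h3]
  congr 1
  funext i
  exact (measurePreserving_eval (fun _ : Fin N => gm d) (e i)).map_eq

/-- general position almost surely -/
theorem gp_ae (d N : ℕ) : ∀ᵐ g ∂(Measure.pi fun _ : Fin N => gm d),
    ∀ s : Finset (Fin N), s.card ≤ d → LinearIndependent ℝ (fun i : s => g i) := by
  rw [ae_all_iff]
  intro s
  by_cases hs : s.card ≤ d
  · have h1 := map_comp (d := d) (fun i : Fin s.card => s.orderEmbOfFin rfl i)
      (s.orderEmbOfFin rfl).injective
    have h2 : ∀ᵐ h ∂(Measure.pi fun _ : Fin s.card => gm d), LinearIndependent ℝ h :=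
      ae_iff.2 (li_ae d s.card hs)
    have h3 := h1.quasiMeasurePreserving.ae h2
    filter_upwards [h3] with g hg _
    have h4 : (fun i : Fin s.card => g (s.orderEmbOfFin rfl i)) =
        (fun i : s => g i) ∘ (s.orderIsoOfFin rfl).toEquiv := by
      funext i
      simp
    rw [h4, linearIndependent_equiv] at hg
    exact hg
  · exact Filter.Eventually.of_forall fun g h => absurd h hs

/-- prescribed scalar products with linearly independent vectors -/
theorem exists_inner {d : ℕ} {ι : Type*} (v : ι → E d) (hv : LinearIndependent ℝ v) (a : ι → ℝ) :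
    ∃ w : E d, ∀ i, ⟪v i, w⟫ = a i := by
  set B := Module.Basis.span hv with hB
  obtain ⟨f, hf⟩ := LinearMap.exists_extend (B.constr ℝ a)
  have h1 : ∀ i, f (v i) = a i := by
    intro i
    have h2 : (B i : E d) = v i := by rw [hB, Module.Basis.span_apply]
    rw [← h2]
    have h3 : f ((Submodule.span ℝ (Set.range v)).subtype (B i)) = (B.constr ℝ a) (B i) := by
      rw [← hf]
      rfl
    rw [Module.Basis.constr_basis] at h3
    exact h3
  refine ⟨(InnerProductSpace.toDual ℝ (E d)).symm (LinearMap.toContinuousLinearMap f), fun i => ?_⟩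
  rw [real_inner_comm, InnerProductSpace.toDual_symm_apply]
  exact h1 i

/-- strict half-space from a closed one, in general position -/
theorem strict_of_gp {d N : ℕ} (g : Fin N → E d)
    (hg : ∀ s : Finset (Fin N), s.card ≤ d → LinearIndependent ℝ (fun i : s => g i))
    (u : E d) (hu : u ≠ 0) (hle : ∀ i, ⟪g i, u⟫ ≤ 0) : ∃ w : E d, ∀ i, ⟪g i, w⟫ < 0 := by
  classical
  set Z : Finset (Fin N) := Finset.univ.filter fun i => ⟪g i, u⟫ = 0 with hZ
  have hcard : Z.card ≤ d := by
    by_contra hlt
    push Not at hlt
    obtain ⟨s, hsZ, hs⟩ := Finset.exists_subset_card_eq hlt.le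
    have hli := hg s hs.le
    have hsp : Submodule.span ℝ (Set.range fun i : s => g i) = ⊤ := by
      apply hli.span_eq_top_of_card_eq_finrank'
      rw [Fintype.card_coe, hs, finrank_euclideanSpace_fin]
    have h1 : ∀ x ∈ Submodule.span ℝ (Set.range fun i : s => g i), ⟪x, u⟫ = 0 := by
      intro x hx
      induction hx using Submodule.span_induction with
      | mem x hx =>
        obtain ⟨i, rfl⟩ := hx
        exact (Finset.mem_filter.1 (hsZ i.2)).2
      | zero => simp
      | add x y _ _ hx hy => rw [inner_add_left, hx, hy, add_zero]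
      | smul c x _ hx => rw [inner_smul_left, hx, mul_zero]
    have h2 := h1 u (by rw [hsp]; trivial)
    exact hu (inner_self_eq_zero.1 h2)
  obtain ⟨w, hw⟩ := exists_inner _ (hg Z hcard) (fun _ => -1)
  have h1 : ∀ᶠ t in 𝓝[>] (0:ℝ), ∀ i, ⟪g i, u + t • w⟫ < 0 := by
    rw [Filter.eventually_all]
    intro i
    by_cases hi : ⟪g i, u⟫ = 0
    · filter_upwards [self_mem_nhdsWithin] with t ht
      have ht' : (0:ℝ) < t := ht
      have := hw ⟨i, Finset.mem_filter.2 ⟨Finset.mem_univ _, hi⟩⟩
      simp only at this
      rw [inner_add_right, inner_smul_right, hi, this]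
      linarith
    · have hlt : ⟪g i, u⟫ < 0 := lt_of_le_of_ne (hle i) hi
      have hc : Continuous (fun t : ℝ => ⟪g i, u + t • w⟫) := by fun_prop
      have h3 : ∀ᶠ t in 𝓝 (0:ℝ), ⟪g i, u + t • w⟫ < 0 :=
        hc.continuousAt.eventually (gt_mem_nhds (by simpa using hlt))
      exact h3.filter_mono nhdsWithin_le_nhds
  obtain ⟨t, ht⟩ := h1.exists
  exact ⟨u + t • w, ht⟩

open Classical in
/-- the sign patterns of `g` -/
noncomputable def Pat {d N : ℕ} (g : Fin N → E d) : Finset (Finset (Fin N)) :=
  Finset.univ.filter fun t => ∃ u : E d, ∀ i, if i ∈ t then 0 < ⟪g i, u⟫ else ⟪g i, u⟫ < 0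

theorem pat_card {d N : ℕ} (g : Fin N → E d) :
    (Pat g).card ≤ ∑ k ∈ Finset.Iic d, N.choose k := by
  classical
  have hvc : (Pat g).vcDim ≤ d := by
    rw [Finset.vcDim]
    apply Finset.sup_le
    intro s hs
    rw [Finset.mem_shatterer] at hs
    by_contra hlt
    push Not at hlt
    have hnli : ¬ LinearIndependent ℝ (fun i : s => g i) := by
      intro hli
      have := hli.fintype_card_le_finrank
      rw [Fintype.card_coe, finrank_euclideanSpace_fin] at this
      omega
    rw [Fintype.not_linearIndependent_iff] at hnli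
    obtain ⟨c, hc, i0, hi0⟩ := hnli
    set t0 : Finset (Fin N) := (Finset.univ.filter fun i : s => 0 < c i).map
      (Function.Embedding.subtype _) with ht0
    have hsub : t0 ⊆ s := by
      intro i hi
      rw [ht0, Finset.mem_map] at hi
      obtain ⟨j, -, rfl⟩ := hi
      exact j.2
    obtain ⟨t, ht, hst⟩ := hs hsub
    obtain ⟨u, hu⟩ := (Finset.mem_filter.1 ht).2
    have hmem : ∀ i : s, ((i : Fin N) ∈ t ↔ 0 < c i) := by
      intro i
      have h1 : (i : Fin N) ∈ t0 ↔ (i : Fin N) ∈ t := by
        rw [← hst, Finset.mem_inter]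
        exact ⟨fun h => h.2, fun h => ⟨i.2, h⟩⟩
      rw [← h1, ht0, Finset.mem_map]
      constructor
      · rintro ⟨j, hj, hji⟩
        have : j = i := Subtype.ext hji
        rw [← this]
        exact (Finset.mem_filter.1 hj).2
      · intro h
        exact ⟨i, Finset.mem_filter.2 ⟨Finset.mem_univ _, h⟩, rfl⟩
    have hterm : ∀ i : s, 0 ≤ c i * ⟪g i, u⟫ := by
      intro i
      have h1 := hu i
      by_cases hi : (i : Fin N) ∈ t
      · rw [if_pos hi] at h1
        exact (mul_pos ((hmem i).1 hi) h1).le
      · rw [if_neg hi] at h1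
        have h2 : c i ≤ 0 := by
          by_contra hc'
          push Not at hc'
          exact hi ((hmem i).2 hc')
        nlinarith
    have hpos : 0 < c i0 * ⟪g i0, u⟫ := by
      have h1 := hu i0
      by_cases hi : (i0 : Fin N) ∈ t
      · rw [if_pos hi] at h1
        exact mul_pos ((hmem i0).1 hi) h1
      · rw [if_neg hi] at h1
        have h2 : c i0 ≤ 0 := by
          by_contra hc'
          push Not at hc'
          exact hi ((hmem i0).2 hc')
        have h3 : c i0 < 0 := lt_of_le_of_ne h2 hi0
        exact mul_pos_of_neg_of_neg h3 h1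
    have hsum : ∑ i : s, c i * ⟪g i, u⟫ = 0 := by
      have h1 : ⟪∑ i : s, c i • g i, u⟫ = 0 := by rw [hc, inner_zero_left]
      rw [sum_inner] at h1
      rw [← h1]
      refine Finset.sum_congr rfl fun i _ => ?_
      rw [inner_smul_left, conj_trivial]
    have hgt : 0 < ∑ i : s, c i * ⟪g i, u⟫ :=
      Finset.sum_pos' (fun i _ => hterm i) ⟨i0, Finset.mem_univ _, hpos⟩
    linarith
  calc (Pat g).card ≤ (Pat g).shatterer.card := Finset.card_le_card_shatterer _
    _ ≤ ∑ k ∈ Finset.Iic (Pat g).vcDim, (Fintype.card (Fin N)).choose k :=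
        Finset.card_shatterer_le_sum_vcDim
    _ ≤ ∑ k ∈ Finset.Iic d, N.choose k := by
        rw [Fintype.card_fin]
        exact Finset.sum_le_sum_of_subset (Finset.Iic_subset_Iic.2 hvc)

/-- all vectors in an open half-space -/
def Half {d N : ℕ} : Set (Fin N → E d) := {g | ∃ w : E d, ∀ i, ⟪g i, w⟫ < 0}

theorem half_open {d N : ℕ} : IsOpen (Half (d := d) (N := N)) := by
  have : Half (d := d) (N := N) = ⋃ w : E d, ⋂ i, {g | ⟪g i, w⟫ < 0} := by
    ext g
    simp [Half]
  rw [this]
  refine isOpen_iUnion fun w => isOpen_iInter_of_finite fun i => isOpen_lt (by fun_prop)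
    continuous_const

theorem half_prob (d N : ℕ) : (2:ℝ≥0∞) ^ N * (Measure.pi fun _ : Fin N => gm d) Half ≤
    ((∑ k ∈ Finset.Iic d, N.choose k : ℕ) : ℝ≥0∞) := by
  classical
  set P := (Measure.pi fun _ : Fin N => gm d) with hP
  have hflip : ∀ t : Finset (Fin N), MeasurePreserving
      (fun (g : Fin N → E d) i => if i ∈ t then -g i else g i) P P := by
    intro t
    have h1 : ∀ i, MeasurePreserving (fun x : E d => if i ∈ t then -x else x) (gm d) (gm d) := by
      intro i
      by_cases hi : i ∈ t
      · simp only [hi, if_true]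
        exact mp_neg d
      · simp only [hi, if_false]
        exact MeasurePreserving.id _
    exact measurePreserving_pi (fun _ : Fin N => gm d) (fun _ : Fin N => gm d) h1
  have hset : ∀ t : Finset (Fin N),
      P {g | t ∈ Pat g} = P Half := by
    intro t
    rw [← (hflip t).measure_preimage half_open.measurableSet.nullMeasurableSet]
    congr 1
    ext g
    simp only [Pat, Finset.mem_filter, Finset.mem_univ, true_and, Set.mem_preimage, Half,
      Set.mem_ofPred_eq]
    refine exists_congr fun u => forall_congr' fun i => ?_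
    by_cases hi : i ∈ t
    · simp only [hi, if_true, inner_neg_left, neg_lt_zero]
    · simp only [hi, if_false]
  have hmeas : ∀ t : Finset (Fin N), MeasurableSet {g : Fin N → E d | t ∈ Pat g} := by
    intro t
    have h1 : {g : Fin N → E d | t ∈ Pat g} =
        (fun (g : Fin N → E d) i => if i ∈ t then -g i else g i) ⁻¹' Half := by
      ext g
      simp only [Pat, Finset.mem_filter, Finset.mem_univ, true_and, Set.mem_preimage, Half,
        Set.mem_ofPred_eq]
      refine exists_congr fun u => forall_congr' fun i => ?_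
      by_cases hi : i ∈ t
      · simp only [hi, if_true, inner_neg_left, neg_lt_zero]
      · simp only [hi, if_false]
    rw [h1]
    exact half_open.measurableSet.preimage (hflip t).measurable
  calc (2:ℝ≥0∞) ^ N * P Half = ∑ t : Finset (Fin N), P {g | t ∈ Pat g} := by
        simp only [hset]
        rw [Finset.sum_const, Finset.card_univ, Fintype.card_finset, Fintype.card_fin,
          nsmul_eq_mul]
        push_cast
        rfl
    _ = ∑ t : Finset (Fin N), ∫⁻ g, {g : Fin N → E d | t ∈ Pat g}.indicator 1 g ∂P :=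
        Finset.sum_congr rfl fun t _ => (lintegral_indicator_one (hmeas t)).symm
    _ = ∫⁻ g, ∑ t : Finset (Fin N), {g : Fin N → E d | t ∈ Pat g}.indicator 1 g ∂P :=
        (lintegral_finsetSum _ fun t _ => measurable_one.indicator (hmeas t)).symm
    _ ≤ ∫⁻ _, ((∑ k ∈ Finset.Iic d, N.choose k : ℕ) : ℝ≥0∞) ∂P := by
        refine lintegral_mono fun g => ?_
        simp only [Set.indicator_apply, Pi.one_apply, Set.mem_ofPred_eq]
        rw [Finset.sum_boole]
        have h1 : (Finset.univ.filter fun t => t ∈ Pat g) = Pat g := by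
          ext t
          simp
        rw [h1]
        exact_mod_cast pat_card g
    _ = _ := by rw [lintegral_const, measure_univ, mul_one]

/-- few recession directions -/
theorem rec_prob {d N : ℕ} (S : Finset ℝ) (hS : (1:ℝ) ∈ S) :
    (2:ℝ≥0∞) ^ N * (Measure.pi fun _ : Fin N => gm d) {g | Rec S g} ≤
    ((∑ k ∈ Finset.Iic d, N.choose k : ℕ) : ℝ≥0∞) := by
  refine le_trans (mul_le_mul' le_rfl ?_) (half_prob d N)
  refine measure_mono_ae ?_
  filter_upwards [gp_ae d N] with g hg hrec
  obtain ⟨u, hu, h⟩ := hrec
  exact strict_of_gp g hg u hu fun i => by simpa using h i 1 hS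

end Pool.Agent.J4H48.RP
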